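import Pool.Agent.H71.AV.Refl

/-!
# The rotations by `π` about the three coordinate axes of the two-sphere
-/

namespace Pool.Agent.H89.AVB

open Pool.Agent.H73.Avr Pool.Agent.H71.AV

/-- the linear map which keeps the coordinate `k` and negates the other two -/
noncomputable def lrho (k : Fin 3) (x : EuclideanSpace ℝ (Fin 3)) : EuclideanSpace ℝ (Fin 3) :=
  WithLp.toLp 2 (fun i => if i = k then x i else -x i)

theorem lrho_apply (k : Fin 3) (x : EuclideanSpace ℝ (Fin 3)) (i : Fin 3) :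
    lrho k x i = if i = k then x i else -x i := rfl

theorem inner_lrho (k : Fin 3) (x y : EuclideanSpace ℝ (Fin 3)) :
    inner ℝ (lrho k x) (lrho k y) = inner ℝ x y := by
  rw [PiLp.inner_apply, PiLp.inner_apply]
  refine Finset.sum_congr rfl fun i _ => ?_
  rw [lrho_apply, lrho_apply]
  split_ifs <;> simp

theorem norm_lrho (k : Fin 3) (x : EuclideanSpace ℝ (Fin 3)) : ‖lrho k x‖ = ‖x‖ := by
  have h1 := inner_lrho k x x
  rw [real_inner_self_eq_norm_sq, real_inner_self_eq_norm_sq] at h1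
  exact (sq_eq_sq₀ (norm_nonneg _) (norm_nonneg _)).1 h1

/-- the rotation of the two-sphere by `π` about the axis `k`: it keeps the coordinate `k` and
negates the other two -/
noncomputable def rho (k : Fin 3) (x : Sph 2) : Sph 2 :=
  ⟨lrho k x.1, by rw [mem_sphere_zero_iff_norm, norm_lrho, mem_sphere_zero_iff_norm.1 x.2]⟩

theorem rho_val (k : Fin 3) (x : Sph 2) : (rho k x).1 = lrho k x.1 := rfl

theorem rho_apply (k : Fin 3) (x : Sph 2) (i : Fin 3) :
    (rho k x).1 i = if i = k then x.1 i else -x.1 i := rfl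

theorem rho_rho (k : Fin 3) (x : Sph 2) : rho k (rho k x) = x := by
  apply Subtype.ext
  ext i
  rw [rho_apply, rho_apply]
  split_ifs <;> simp

theorem rho_comm (j k : Fin 3) (x : Sph 2) : rho j (rho k x) = rho k (rho j x) := by
  apply Subtype.ext
  ext i
  rw [rho_apply, rho_apply, rho_apply, rho_apply]
  split_ifs <;> rfl

theorem rho_injective (k : Fin 3) : Function.Injective (rho k) := fun x y h => by
  rw [← rho_rho k x, h, rho_rho]

theorem geo_rho (k : Fin 3) (x y : Sph 2) : geo 2 (rho k x) (rho k y) = geo 2 x y := by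
  unfold geo InnerProductGeometry.angle
  rw [rho_val, rho_val, inner_lrho, norm_lrho, norm_lrho]

/-- the action of the rotation on the thickening -/
noncomputable def rA (r : ℝ) (k : Fin 3) : AVR (geo 2) r → AVR (geo 2) r :=
  AVR.map (rho k) (geo_rho k) (rho_injective k)

theorem rA_w {r : ℝ} (k : Fin 3) (μ : AVR (geo 2) r) :
    (rA r k μ).w = μ.w.mapDomain (rho k) := rfl

theorem rA_rA {r : ℝ} (k : Fin 3) (μ : AVR (geo 2) r) : rA r k (rA r k μ) = μ := by
  apply AVR.ext
  rw [rA_w, rA_w, ← Finsupp.mapDomain_comp]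
  have : rho k ∘ rho k = id := funext (rho_rho k)
  rw [this, Finsupp.mapDomain_id]

theorem rA_comm {r : ℝ} (j k : Fin 3) (μ : AVR (geo 2) r) :
    rA r j (rA r k μ) = rA r k (rA r j μ) := by
  apply AVR.ext
  rw [rA_w, rA_w, rA_w, rA_w, ← Finsupp.mapDomain_comp, ← Finsupp.mapDomain_comp]
  have : rho j ∘ rho k = rho k ∘ rho j := funext (rho_comm j k)
  rw [this]

theorem rA_apply {r : ℝ} (k : Fin 3) (μ : AVR (geo 2) r) (x : Sph 2) :
    (rA r k μ).w x = μ.w (rho k x) := by
  rw [rA_w]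
  conv_lhs => rw [← rho_rho k x]
  exact Finsupp.mapDomain_apply (rho_injective k) _ _

theorem rA_eq_self {r : ℝ} {k : Fin 3} {μ : AVR (geo 2) r} (h : ∀ x, μ.w (rho k x) = μ.w x) :
    rA r k μ = μ := by
  apply AVR.ext
  ext x
  rw [rA_apply, h]

theorem rA_continuous {r : ℝ} (k : Fin 3) : Continuous (rA r k) :=
  continuous_map geo_nonneg (rho k) (geo_rho k) (rho_injective k)

theorem ri_rA {r : ℝ} (k : Fin 3) (f : Sph 2 → ℝ) (μ : AVR (geo 2) r) :
    ri f (rA r k μ).w = ri (fun x => f (rho k x)) μ.w := by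
  unfold ri
  rw [rA_w, Finsupp.sum_mapDomain_index]
  · intro b; simp
  · intro b m1 m2; ring

/-- the quadratic symmetric function of the squares of the coordinates -/
noncomputable def q4 (x : Sph 2) : ℝ :=
  x.1 0 ^ 2 * x.1 1 ^ 2 + x.1 1 ^ 2 * x.1 2 ^ 2 + x.1 2 ^ 2 * x.1 0 ^ 2

/-- positive on the equator, negative at the poles of the last axis -/
noncomputable def s4 (x : Sph 2) : ℝ := 1 - 3 * x.1 2 ^ 2

theorem rho_sq (k : Fin 3) (x : Sph 2) (i : Fin 3) : (rho k x).1 i ^ 2 = x.1 i ^ 2 := by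
  rw [rho_apply]
  split_ifs
  · rfl
  · rw [neg_sq]

theorem q4_rho (k : Fin 3) (x : Sph 2) : q4 (rho k x) = q4 x := by
  unfold q4
  simp only [rho_sq]

theorem s4_rho (k : Fin 3) (x : Sph 2) : s4 (rho k x) = s4 x := by
  unfold s4
  simp only [rho_sq]

theorem sum_sq3 (x : Sph 2) : x.1 0 ^ 2 + x.1 1 ^ 2 + x.1 2 ^ 2 = 1 := by
  have h1 : inner ℝ x.1 x.1 = (1 : ℝ) := by
    rw [real_inner_self_eq_norm_sq, mem_sphere_zero_iff_norm.1 x.2]
    norm_num
  rw [PiLp.inner_apply, Fin.sum_univ_three] at h1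
  simp only [RCLike.inner_apply, conj_trivial] at h1
  nlinarith [h1]

end Pool.Agent.H89.AVB
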