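import Pool.Agent.H71.AV.Paths
import Pool.Agent.H89.AVB.Rho

/-!
# A loop of measures on the two-sphere invariant under the three rotations by `π`
-/

namespace Pool.Agent.H89.AVB

open Pool.Agent.H73.Avr hiding cl
open Pool.Agent.H71.AV

/-! ## Continuity of families with moving points and moving weights -/

private theorem cost_sum {X ι : Type} (d : X → X → ℝ) (s : Finset ι) (f : ι → (X × X) →₀ ℝ) :
    cost d (∑ i ∈ s, f i) = ∑ i ∈ s, cost d (f i) := by
  classical
  induction s using Finset.induction_on with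
  | empty =>
    rw [Finset.sum_empty, Finset.sum_empty]
    unfold cost
    exact Finsupp.sum_zero_index
  | insert a s ha ih => rw [Finset.sum_insert ha, Finset.sum_insert ha, cost_add, ih]

private theorem single_sum' {X ι : Type} (x : X) (s : Finset ι) (f : ι → ℝ) :
    ∑ i ∈ s, Finsupp.single x (f i) = Finsupp.single x (∑ i ∈ s, f i) := by
  classical
  induction s using Finset.induction_on with
  | empty => simp
  | insert a s ha ih => rw [Finset.sum_insert ha, Finset.sum_insert ha, Finsupp.single_add, ih]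

private theorem map_sum' {X Y ι : Type} (f : X → Y) (s : Finset ι) (g : ι → X →₀ ℝ) :
    Finsupp.mapDomain f (∑ i ∈ s, g i) = ∑ i ∈ s, Finsupp.mapDomain f (g i) := by
  classical
  induction s using Finset.induction_on with
  | empty => rw [Finset.sum_empty, Finset.sum_empty, Finsupp.mapDomain_zero]
  | insert a s ha ih =>
    rw [Finset.sum_insert ha, Finset.sum_insert ha, Finsupp.mapDomain_add, ih]

private theorem coupling_fam {n : ℕ} {ι : Type} [Fintype ι] (x x' : ι → Sph n) (l l' : ι → ℝ)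
    (hl : ∀ i, 0 ≤ l i) (hl' : ∀ i, 0 ≤ l' i) (hs : ∑ i, l i = 1) (hs' : ∑ i, l' i = 1) :
    ∃ π, IsCoupling π (∑ i, Finsupp.single (x i) (l i)) (∑ i, Finsupp.single (x' i) (l' i)) ∧
      cost (geo n) π ≤ ∑ i, (l i * geo n (x i) (x' i) + Real.pi * |l i - l' i|) := by
  classical
  set m : ι → ℝ := fun i => min (l i) (l' i) with hm
  have hm0 : ∀ i, 0 ≤ m i := fun i => le_min (hl i) (hl' i)
  have hml : ∀ i, m i ≤ l i := fun i => min_le_left _ _
  have hml' : ∀ i, m i ≤ l' i := fun i => min_le_right _ _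
  set R : ℝ := ∑ i, (l i - m i) with hR
  have hR' : ∑ i, (l' i - m i) = R := by
    rw [hR, Finset.sum_sub_distrib, Finset.sum_sub_distrib, hs, hs']
  have hR0 : 0 ≤ R := Finset.sum_nonneg fun i _ => by linarith [hml i]
  have hz : R = 0 → ∀ i, l i - m i = 0 := by
    intro h i
    exact (Finset.sum_eq_zero_iff_of_nonneg (fun i _ => by linarith [hml i])).1 h i
      (Finset.mem_univ i)
  have hz' : R = 0 → ∀ i, l' i - m i = 0 := by
    intro h i
    rw [← hR'] at h
    exact (Finset.sum_eq_zero_iff_of_nonneg (fun i _ => by linarith [hml' i])).1 h i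
      (Finset.mem_univ i)
  set c : ι → ι → ℝ := fun i j => (l i - m i) * (l' j - m j) / R with hc
  have hc0 : ∀ i j, 0 ≤ c i j := fun i j =>
    div_nonneg (mul_nonneg (by linarith [hml i]) (by linarith [hml' j])) hR0
  have hc1 : ∀ i, ∑ j, c i j = l i - m i := by
    intro i
    simp only [hc]
    rw [← Finset.sum_div, ← Finset.mul_sum, hR']
    rcases eq_or_ne R 0 with h | h
    · rw [hz h i]; simp
    · field_simp
  have hc2 : ∀ j, ∑ i, c i j = l' j - m j := by
    intro j
    simp only [hc]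
    rw [← Finset.sum_div, ← Finset.sum_mul, ← hR]
    rcases eq_or_ne R 0 with h | h
    · rw [hz' h j]; simp
    · field_simp
  refine ⟨∑ i, Finsupp.single (x i, x' i) (m i) +
    ∑ i, ∑ j, Finsupp.single (x i, x' j) (c i j), ⟨?_, ?_, ?_⟩, ?_⟩
  · intro p
    rw [Finsupp.add_apply, Finsupp.finset_sum_apply, Finsupp.finset_sum_apply]
    refine add_nonneg (Finset.sum_nonneg fun i _ => single_nonneg _ _ (hm0 i))
      (Finset.sum_nonneg fun i _ => ?_)
    rw [Finsupp.finset_sum_apply]
    exact Finset.sum_nonneg fun j _ => single_nonneg _ _ (hc0 i j)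
  · rw [Finsupp.mapDomain_add, map_sum', map_sum', ← Finset.sum_add_distrib]
    refine Finset.sum_congr rfl fun i _ => ?_
    rw [Finsupp.mapDomain_single, map_sum']
    simp only [Finsupp.mapDomain_single]
    rw [single_sum', hc1, ← Finsupp.single_add]
    congr 1
    ring
  · rw [Finsupp.mapDomain_add, map_sum', map_sum']
    simp only [map_sum', Finsupp.mapDomain_single]
    rw [Finset.sum_comm, ← Finset.sum_add_distrib]
    refine Finset.sum_congr rfl fun j _ => ?_
    rw [single_sum', hc2, ← Finsupp.single_add]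
    congr 1
    ring
  · rw [cost_add, cost_sum, cost_sum]
    simp only [cost_sum, cost_single]
    rw [Finset.sum_add_distrib]
    refine add_le_add ?_ ?_
    · exact Finset.sum_le_sum fun i _ => mul_le_mul_of_nonneg_right (hml i) (geo_nonneg _ _)
    · have h1 : ∀ i, ∑ j, c i j * geo n (x i) (x' j) ≤ (l i - m i) * Real.pi := by
        intro i
        rw [← hc1 i, Finset.sum_mul]
        exact Finset.sum_le_sum fun j _ => mul_le_mul_of_nonneg_left (geo_le_pi _ _) (hc0 i j)
      refine Finset.sum_le_sum fun i _ => (h1 i).trans ?_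
      rw [mul_comm]
      refine mul_le_mul_of_nonneg_left ?_ Real.pi_pos.le
      rcases le_total (l i) (l' i) with h | h
      · rw [hm]
        show l i - min (l i) (l' i) ≤ _
        rw [min_eq_left h, sub_self]
        exact abs_nonneg _
      · rw [hm]
        show l i - min (l i) (l' i) ≤ _
        rw [min_eq_right h]
        exact le_abs_self _

theorem cont_fam {n : ℕ} {r : ℝ} {ι : Type} [Fintype ι] (x : ℝ → ι → Sph n) (l : ℝ → ι → ℝ)
    (hx : ∀ i, Continuous fun t => x t i) (hl : ∀ i, Continuous fun t => l t i)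
    (hl0 : ∀ t i, 0 ≤ l t i) (hl1 : ∀ t, ∑ i, l t i = 1) (μ : ℝ → AVR (geo n) r)
    (hμ : ∀ t, (μ t).w = ∑ i, Finsupp.single (x t i) (l t i)) : Continuous μ := by
  refine cont_of_coupling μ
    (fun t t' => ∑ i, (l t i * geo n (x t i) (x t' i) + Real.pi * |l t i - l t' i|)) ?_ ?_ ?_
  · intro t
    refine continuous_finset_sum _ fun i _ => ?_
    refine (continuous_const.mul ?_).add
      (continuous_const.mul (continuous_const.sub (hl i)).abs)
    have h : (fun t' => geo n (x t i) (x t' i)) =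
        fun t' => Real.arccos (inner ℝ (x t i).1 (x t' i).1) := funext fun t' => geo_eq_arccos _ _
    rw [h]
    exact Real.continuous_arccos.comp
      (continuous_const.inner (continuous_subtype_val.comp (hx i)))
  · intro t
    refine Finset.sum_eq_zero fun i _ => ?_
    rw [geo_self, sub_self, abs_zero]
    ring
  · intro t t'
    obtain ⟨π, h1, h2⟩ := coupling_fam (x t) (x t') (l t) (l t') (hl0 t) (hl0 t') (hl1 t) (hl1 t')
    exact ⟨π, by rw [hμ, hμ]; exact h1, h2⟩

/-! ## Orbits of the group of the three rotations -/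

private theorem third (j k : Fin 3) (h : j ≠ k) :
    ∃ l, l ≠ j ∧ l ≠ k ∧ ∀ i, i = j ∨ i = k ∨ i = l := by
  revert h
  revert j k
  decide

theorem rho_mul {j k l : Fin 3} (hjk : j ≠ k) (hj : l ≠ j) (hk : l ≠ k) (x : Sph 2) :
    rho l (rho j x) = rho k x := by
  apply Subtype.ext
  ext i
  have hi : i = j ∨ i = k ∨ i = l := by
    revert i j k l
    decide
  rw [rho_apply, rho_apply, rho_apply]
  rcases hi with rfl | rfl | rfl
  · rw [if_neg (Ne.symm hj), if_pos rfl, if_neg hjk]
  · rw [if_neg (Ne.symm hk), if_neg (Ne.symm hjk), if_pos rfl, neg_neg]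
  · rw [if_pos rfl, if_neg hj, if_neg hk]

/-- the four elements of the group -/
noncomputable def vv : Option (Fin 3) → Sph 2 → Sph 2
  | none, x => x
  | some k, x => rho k x

private theorem vv_closure (i j : Option (Fin 3)) (x : Sph 2) :
    vv j x = vv i x ∨ ∃ k, vv j x = rho k (vv i x) := by
  rcases i with _ | i <;> rcases j with _ | j
  · exact Or.inl rfl
  · exact Or.inr ⟨j, rfl⟩
  · exact Or.inr ⟨i, (rho_rho i x).symm⟩
  · by_cases h : i = j
    · subst h
      exact Or.inl rfl
    · obtain ⟨l, h1, h2, -⟩ := third i j h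
      exact Or.inr ⟨l, (rho_mul h h1 h2 x).symm⟩

private theorem vv_sq (v : Option (Fin 3)) (x : Sph 2) (i : Fin 3) :
    (vv v x).1 i ^ 2 = x.1 i ^ 2 := by
  rcases v with _ | k
  · rfl
  · exact rho_sq k x i

private theorem vv_rho (v : Option (Fin 3)) (k : Fin 3) (x : Sph 2) :
    rho k (vv v x) = vv v (rho k x) := by
  rcases v with _ | j
  · rfl
  · exact rho_comm k j x

private theorem vv_zero {v : Option (Fin 3)} {x : Sph 2} {i : Fin 3} (h : x.1 i = 0) :
    (vv v x).1 i = 0 := by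
  have h1 := vv_sq v x i
  rw [h] at h1
  exact pow_eq_zero_iff (two_ne_zero) |>.1 (h1.trans (by norm_num))

private theorem inner3 (x y : Sph 2) :
    inner ℝ x.1 y.1 = x.1 0 * y.1 0 + x.1 1 * y.1 1 + x.1 2 * y.1 2 := by
  rw [PiLp.inner_apply, Fin.sum_univ_three]
  simp only [RCLike.inner_apply, conj_trivial]
  ring

private theorem inner_rho (k : Fin 3) (x : Sph 2) :
    inner ℝ x.1 (rho k x).1 = 2 * x.1 k ^ 2 - 1 := by
  have h := sum_sq3 x
  rw [inner3, rho_apply, rho_apply, rho_apply]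
  fin_cases k
  · simp
    nlinarith [h]
  · simp
    nlinarith [h]
  · simp
    nlinarith [h]

private theorem le_geo_of_nonpos {r : ℝ} (hr : r ≤ Real.pi / 2) (x y : Sph 2)
    (h : inner ℝ x.1 y.1 ≤ 0) : r ≤ geo 2 x y := by
  rw [geo_eq_arccos]
  have h1 : Real.arccos 0 ≤ Real.arccos (inner ℝ x.1 y.1) := Real.arccos_le_arccos h
  rw [Real.arccos_zero] at h1
  linarith

/-- the measure with the weights `l i` on the orbits of the points `p i` -/
noncomputable def wL (p : Fin 3 → Sph 2) (l : Fin 3 → ℝ) : Sph 2 →₀ ℝ :=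
  ∑ q : Fin 3 × Option (Fin 3), Finsupp.single (vv q.2 (p q.1)) (l q.1 / 4)

private theorem wL_support {p : Fin 3 → Sph 2} {l : Fin 3 → ℝ} {x : Sph 2}
    (hx : x ∈ (wL p l).support) : ∃ i v, l i ≠ 0 ∧ x = vv v (p i) := by
  classical
  by_contra hcon
  push Not at hcon
  rw [Finsupp.mem_support_iff] at hx
  apply hx
  unfold wL
  rw [Finsupp.finset_sum_apply]
  refine Finset.sum_eq_zero fun q _ => ?_
  by_cases h : l q.1 = 0
  · rw [h, zero_div, Finsupp.single_zero]
    rfl
  · exact Finsupp.single_eq_of_ne (hcon q.1 q.2 h)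

private theorem ri_sum' {n : ℕ} {ι : Type} (f : Sph n → ℝ) (s : Finset ι)
    (g : ι → Sph n →₀ ℝ) : ri f (∑ i ∈ s, g i) = ∑ i ∈ s, ri f (g i) := by
  classical
  induction s using Finset.induction_on with
  | empty =>
    rw [Finset.sum_empty, Finset.sum_empty]
    unfold ri
    exact Finsupp.sum_zero_index
  | insert a s ha ih => rw [Finset.sum_insert ha, Finset.sum_insert ha, ri_add, ih]

theorem ri_wL {f : Sph 2 → ℝ} (hf : ∀ k x, f (rho k x) = f x) (p : Fin 3 → Sph 2)
    (l : Fin 3 → ℝ) : ri f (wL p l) = ∑ i, l i * f (p i) := by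
  have hv : ∀ v x, f (vv v x) = f x := by
    intro v x
    rcases v with _ | k
    · rfl
    · exact hf k x
  unfold wL
  rw [ri_sum', Fintype.sum_prod_type]
  refine Finset.sum_congr rfl fun i _ => ?_
  simp only [ri_single, hv]
  rw [Finset.sum_const, Finset.card_univ, Fintype.card_option, Fintype.card_fin, nsmul_eq_mul]
  push_cast
  ring

private theorem wL_map (k : Fin 3) (p : Fin 3 → Sph 2) (l : Fin 3 → ℝ) :
    (wL p l).mapDomain (rho k) = wL p l := by
  unfold wL
  rw [map_sum', Fintype.sum_prod_type, Fintype.sum_prod_type]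
  refine Finset.sum_congr rfl fun i _ => ?_
  simp only [Finsupp.mapDomain_single, Fintype.sum_option, Fin.sum_univ_three]
  have h10 : ∀ x, rho 1 (rho 0 x) = rho 2 x := rho_mul (by decide) (by decide) (by decide)
  have h20 : ∀ x, rho 2 (rho 0 x) = rho 1 x := rho_mul (by decide) (by decide) (by decide)
  have h01 : ∀ x, rho 0 (rho 1 x) = rho 2 x := rho_mul (by decide) (by decide) (by decide)
  have h21 : ∀ x, rho 2 (rho 1 x) = rho 0 x := rho_mul (by decide) (by decide) (by decide)
  have h02 : ∀ x, rho 0 (rho 2 x) = rho 1 x := rho_mul (by decide) (by decide) (by decide)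
  have h12 : ∀ x, rho 1 (rho 2 x) = rho 0 x := rho_mul (by decide) (by decide) (by decide)
  have hk : k = 0 ∨ k = 1 ∨ k = 2 := by
    revert k
    decide
  rcases hk with rfl | rfl | rfl
  · simp only [vv, rho_rho, h01, h02]
    abel
  · simp only [vv, rho_rho, h10, h12]
    abel
  · simp only [vv, rho_rho, h20, h21]
    abel

theorem wL_rho (k : Fin 3) (p : Fin 3 → Sph 2) (l : Fin 3 → ℝ) (x : Sph 2) :
    wL p l (rho k x) = wL p l x := by
  conv_rhs => rw [← wL_map k p l, ← rho_rho k x]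
  rw [Finsupp.mapDomain_apply (rho_injective k)]

/-- a combination of orbits as a member of the thickening -/
noncomputable def mkL {r : ℝ} (hr : r ≤ Real.pi / 2) (p : Fin 3 → Sph 2) (l : Fin 3 → ℝ)
    (h0 : ∀ i, 0 ≤ l i) (h1 : ∑ i, l i = 1)
    (hself : ∀ i k, rho k (p i) = p i ∨ (p i).1 k ^ 2 ≤ 1 / 2)
    (horth : ∀ i j, i ≠ j → l i ≠ 0 → l j ≠ 0 → ∀ k, (p i).1 k = 0 ∨ (p j).1 k = 0) :
    AVR (geo 2) r where
  w := wL p l
  nonneg := by
    intro x
    unfold wL
    rw [Finsupp.finset_sum_apply]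
    exact Finset.sum_nonneg fun q _ => single_nonneg _ _ (div_nonneg (h0 _) (by norm_num))
  total := by
    have h := ri_wL (f := fun _ => 1) (fun _ _ => rfl) p l
    unfold ri at h
    simp only [mul_one] at h
    rw [h, h1]
  spread := by
    intro x hx y hy hxy
    obtain ⟨i, v, hi, rfl⟩ := wL_support hx
    obtain ⟨j, v', hj, rfl⟩ := wL_support hy
    refine le_geo_of_nonpos hr _ _ ?_
    by_cases hij : i = j
    · subst hij
      rcases vv_closure v v' (p i) with h | ⟨k, h⟩
      · exact absurd h.symm hxy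
      · rw [h, inner_rho]
        rcases hself i k with h2 | h2
        · exfalso
          apply hxy
          rw [h, vv_rho, h2]
        · rw [vv_sq]
          linarith
    · have h3 := horth i j hij hi hj
      have h4 : ∀ k, (vv v (p i)).1 k * (vv v' (p j)).1 k = 0 := by
        intro k
        rcases h3 k with h | h
        · rw [vv_zero h, zero_mul]
        · rw [vv_zero h, mul_zero]
      rw [inner3, h4, h4, h4]
      norm_num

theorem mkL_w {r : ℝ} (hr : r ≤ Real.pi / 2) (p : Fin 3 → Sph 2) (l : Fin 3 → ℝ)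
    (h0 : ∀ i, 0 ≤ l i) (h1 : ∑ i, l i = 1)
    (hself : ∀ i k, rho k (p i) = p i ∨ (p i).1 k ^ 2 ≤ 1 / 2)
    (horth : ∀ i j, i ≠ j → l i ≠ 0 → l j ≠ 0 → ∀ k, (p i).1 k = 0 ∨ (p j).1 k = 0) :
    (mkL hr p l h0 h1 hself horth).w = wL p l := rfl

/-! ## The points of the loop -/

/-- the point with three given coordinates -/
noncomputable def pt3 (a b c : ℝ) (h : a ^ 2 + b ^ 2 + c ^ 2 = 1) : Sph 2 :=
  ⟨WithLp.toLp 2 ![a, b, c], by
    rw [mem_sphere_zero_iff_norm]
    have h1 : ‖(WithLp.toLp 2 ![a, b, c] : EuclideanSpace ℝ (Fin 3))‖ ^ 2 = 1 := by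
      rw [← real_inner_self_eq_norm_sq, PiLp.inner_apply, Fin.sum_univ_three]
      simp only [RCLike.inner_apply, conj_trivial]
      rw [← h]
      simp
      ring
    have h2 := norm_nonneg (WithLp.toLp 2 ![a, b, c] : EuclideanSpace ℝ (Fin 3))
    nlinarith⟩

theorem pt3_0 (a b c : ℝ) (h : a ^ 2 + b ^ 2 + c ^ 2 = 1) : (pt3 a b c h).1 0 = a := rfl
theorem pt3_1 (a b c : ℝ) (h : a ^ 2 + b ^ 2 + c ^ 2 = 1) : (pt3 a b c h).1 1 = b := rfl
theorem pt3_2 (a b c : ℝ) (h : a ^ 2 + b ^ 2 + c ^ 2 = 1) : (pt3 a b c h).1 2 = c := rfl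

private theorem pt3_cont {a b c : ℝ → ℝ} (h : ∀ t, a t ^ 2 + b t ^ 2 + c t ^ 2 = 1)
    (ha : Continuous a) (hb : Continuous b) (hc : Continuous c) :
    Continuous fun t => pt3 (a t) (b t) (c t) (h t) := by
  refine Continuous.subtype_mk ?_ _
  refine (PiLp.continuous_toLp 2 _).comp ?_
  refine continuous_pi fun i => ?_
  fin_cases i
  · exact ha
  · exact hb
  · exact hc

private theorem rho_cont (k : Fin 3) : Continuous (rho k) := by
  refine Continuous.subtype_mk ?_ _
  show Continuous fun x : Sph 2 => lrho k x.1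
  unfold lrho
  refine (PiLp.continuous_toLp 2 _).comp ?_
  refine continuous_pi fun i => ?_
  have hi : Continuous fun x : Sph 2 => x.1 i := by fun_prop
  by_cases h : i = k
  · simp only [h, if_true]
    rw [← h]
    exact hi
  · simp only [h, if_false]
    exact hi.neg

private theorem vv_cont (v : Option (Fin 3)) : Continuous (vv v) := by
  rcases v with _ | k
  · exact continuous_id
  · exact rho_cont k

private theorem sq_aux (φ : ℝ) :
    (Real.sin φ / Real.sqrt 2) ^ 2 + (1 / Real.sqrt 2) ^ 2 + (Real.cos φ / Real.sqrt 2) ^ 2 =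
      1 := by
  rw [div_pow, div_pow, div_pow, Real.sq_sqrt (by norm_num)]
  have h := Real.sin_sq_add_cos_sq φ
  linarith

/-- the three base points -/
noncomputable def bp (φ : ℝ) : Fin 3 → Sph 2
  | 0 => pt3 1 0 0 (by norm_num)
  | 1 => pt3 (Real.sin φ / Real.sqrt 2) (1 / Real.sqrt 2) (Real.cos φ / Real.sqrt 2) (sq_aux φ)
  | 2 => pt3 0 0 1 (by norm_num)

private theorem bp_cont {φ : ℝ → ℝ} (hφ : Continuous φ) (i : Fin 3) :
    Continuous fun t => bp (φ t) i := by
  have hi : i = 0 ∨ i = 1 ∨ i = 2 := by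
    revert i
    decide
  rcases hi with rfl | rfl | rfl
  · exact continuous_const
  · exact pt3_cont (fun t => sq_aux (φ t)) ((Real.continuous_sin.comp hφ).div_const _)
      continuous_const ((Real.continuous_cos.comp hφ).div_const _)
  · exact continuous_const

private theorem bp_self (φ : ℝ) (i k : Fin 3) :
    rho k (bp φ i) = bp φ i ∨ (bp φ i).1 k ^ 2 ≤ 1 / 2 := by
  have hi : i = 0 ∨ i = 1 ∨ i = 2 := by
    revert i
    decide
  have hk : k = 0 ∨ k = 1 ∨ k = 2 := by
    revert k
    decide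
  have hs : Real.sqrt 2 ^ 2 = 2 := Real.sq_sqrt (by norm_num)
  have h := Real.sin_sq_add_cos_sq φ
  have h1 := sq_nonneg (Real.sin φ)
  have h2 := sq_nonneg (Real.cos φ)
  rcases hi with rfl | rfl | rfl
  · rcases hk with rfl | rfl | rfl
    · left
      apply Subtype.ext
      ext j
      rw [rho_apply]
      have hj : j = 0 ∨ j = 1 ∨ j = 2 := by
        revert j
        decide
      rcases hj with rfl | rfl | rfl
      · rw [if_pos rfl]
      · rw [if_neg (by decide)]
        show -(0 : ℝ) = 0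
        norm_num
      · rw [if_neg (by decide)]
        show -(0 : ℝ) = 0
        norm_num
    · right
      show (0 : ℝ) ^ 2 ≤ 1 / 2
      norm_num
    · right
      show (0 : ℝ) ^ 2 ≤ 1 / 2
      norm_num
  · right
    rcases hk with rfl | rfl | rfl
    · show (Real.sin φ / Real.sqrt 2) ^ 2 ≤ 1 / 2
      rw [div_pow, hs]
      linarith
    · show (1 / Real.sqrt 2) ^ 2 ≤ 1 / 2
      rw [div_pow, hs]
      norm_num
    · show (Real.cos φ / Real.sqrt 2) ^ 2 ≤ 1 / 2
      rw [div_pow, hs]
      linarith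
  · rcases hk with rfl | rfl | rfl
    · right
      show (0 : ℝ) ^ 2 ≤ 1 / 2
      norm_num
    · right
      show (0 : ℝ) ^ 2 ≤ 1 / 2
      norm_num
    · left
      apply Subtype.ext
      ext j
      rw [rho_apply]
      have hj : j = 0 ∨ j = 1 ∨ j = 2 := by
        revert j
        decide
      rcases hj with rfl | rfl | rfl
      · rw [if_neg (by decide)]
        show -(0 : ℝ) = 0
        norm_num
      · rw [if_neg (by decide)]
        show -(0 : ℝ) = 0
        norm_num
      · rw [if_pos rfl]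

/-- the weights -/
noncomputable def wt (a c : ℝ) : Fin 3 → ℝ
  | 0 => a
  | 1 => 1 - a - c
  | 2 => c

private theorem bp_orth {a c φ : ℝ} (h1 : a = 0 ∨ a + c = 1 ∨ Real.sin φ = 0)
    (h2 : c = 0 ∨ a + c = 1 ∨ Real.cos φ = 0) (i j : Fin 3) (hij : i ≠ j)
    (hi : wt a c i ≠ 0) (hj : wt a c j ≠ 0) (k : Fin 3) :
    (bp φ i).1 k = 0 ∨ (bp φ j).1 k = 0 := by
  have e1 : a ≠ 0 → 1 - a - c ≠ 0 → Real.sin φ / Real.sqrt 2 = 0 := by
    intro ha hb
    rcases h1 with h | h | h
    · exact absurd h ha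
    · exact absurd (by linarith) hb
    · rw [h, zero_div]
  have e2 : c ≠ 0 → 1 - a - c ≠ 0 → Real.cos φ / Real.sqrt 2 = 0 := by
    intro ha hb
    rcases h2 with h | h | h
    · exact absurd h ha
    · exact absurd (by linarith) hb
    · rw [h, zero_div]
  have hi' : i = 0 ∨ i = 1 ∨ i = 2 := by
    clear hi hij
    revert i
    decide
  have hj' : j = 0 ∨ j = 1 ∨ j = 2 := by
    clear hj hij
    revert j
    decide
  have hk : k = 0 ∨ k = 1 ∨ k = 2 := by
    revert k
    decide
  rcases hi' with rfl | rfl | rfl <;> rcases hj' with rfl | rfl | rfl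
  · exact absurd rfl hij
  · rcases hk with rfl | rfl | rfl
    · right
      exact e1 hi hj
    · left; rfl
    · left; rfl
  · rcases hk with rfl | rfl | rfl
    · right; rfl
    · left; rfl
    · left; rfl
  · rcases hk with rfl | rfl | rfl
    · left
      exact e1 hj hi
    · right; rfl
    · right; rfl
  · exact absurd rfl hij
  · rcases hk with rfl | rfl | rfl
    · right; rfl
    · right; rfl
    · left
      exact e2 hj hi
  · rcases hk with rfl | rfl | rfl
    · left; rfl
    · left; rfl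
    · right; rfl
  · rcases hk with rfl | rfl | rfl
    · left; rfl
    · left; rfl
    · right
      exact e2 hi hj
  · exact absurd rfl hij

/-- the measure with the weights `a`, `1 - a - c`, `c` on the orbits of the points `bp φ` -/
noncomputable def mk4 {r : ℝ} (hr : r ≤ Real.pi / 2) (a c φ : ℝ) (ha : 0 ≤ a) (hc : 0 ≤ c)
    (hac : a + c ≤ 1) (h1 : a = 0 ∨ a + c = 1 ∨ Real.sin φ = 0)
    (h2 : c = 0 ∨ a + c = 1 ∨ Real.cos φ = 0) : AVR (geo 2) r :=
  mkL hr (bp φ) (wt a c)
    (by
      intro i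
      have hi : i = 0 ∨ i = 1 ∨ i = 2 := by
        revert i
        decide
      rcases hi with rfl | rfl | rfl
      · exact ha
      · show 0 ≤ 1 - a - c
        linarith
      · exact hc)
    (by
      rw [Fin.sum_univ_three]
      show a + (1 - a - c) + c = 1
      ring)
    (bp_self φ) (bp_orth h1 h2)

private theorem mk4_w {r : ℝ} (hr : r ≤ Real.pi / 2) (a c φ : ℝ) (ha : 0 ≤ a) (hc : 0 ≤ c)
    (hac : a + c ≤ 1) (h1 : a = 0 ∨ a + c = 1 ∨ Real.sin φ = 0)
    (h2 : c = 0 ∨ a + c = 1 ∨ Real.cos φ = 0) :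
    (mk4 hr a c φ ha hc hac h1 h2).w = wL (bp φ) (wt a c) := rfl

private theorem cont_mk4 {r : ℝ} (hr : r ≤ Real.pi / 2) (a c φ : ℝ → ℝ) (ha : ∀ t, 0 ≤ a t)
    (hc : ∀ t, 0 ≤ c t) (hac : ∀ t, a t + c t ≤ 1)
    (h1 : ∀ t, a t = 0 ∨ a t + c t = 1 ∨ Real.sin (φ t) = 0)
    (h2 : ∀ t, c t = 0 ∨ a t + c t = 1 ∨ Real.cos (φ t) = 0)
    (ka : Continuous a) (kc : Continuous c) (kφ : Continuous φ) :
    Continuous fun t => mk4 hr (a t) (c t) (φ t) (ha t) (hc t) (hac t) (h1 t) (h2 t) := by
  have hwt : ∀ i : Fin 3, Continuous fun t => wt (a t) (c t) i := by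
    intro i
    have hi : i = 0 ∨ i = 1 ∨ i = 2 := by
      revert i
      decide
    rcases hi with rfl | rfl | rfl
    · exact ka
    · exact (continuous_const.sub ka).sub kc
    · exact kc
  have hw0 : ∀ t, ∀ i : Fin 3, 0 ≤ wt (a t) (c t) i := by
    intro t i
    have hi : i = 0 ∨ i = 1 ∨ i = 2 := by
      revert i
      decide
    rcases hi with rfl | rfl | rfl
    · exact ha t
    · show 0 ≤ 1 - a t - c t
      linarith [hac t]
    · exact hc t
  refine cont_fam (ι := Fin 3 × Option (Fin 3)) (fun t q => vv q.2 (bp (φ t) q.1))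
    (fun t q => wt (a t) (c t) q.1 / 4) ?_ ?_ ?_ ?_ _ (fun t => rfl)
  · intro q
    exact (vv_cont q.2).comp (bp_cont kφ q.1)
  · intro q
    exact (hwt q.1).div_const _
  · intro t q
    exact div_nonneg (hw0 t q.1) (by norm_num)
  · intro t
    rw [Fintype.sum_prod_type]
    simp only [Finset.sum_const, Finset.card_univ, Fintype.card_option, Fintype.card_fin,
      nsmul_eq_mul]
    rw [Fin.sum_univ_three]
    show ((3 + 1 : ℕ) : ℝ) * (a t / 4) + ((3 + 1 : ℕ) : ℝ) * ((1 - a t - c t) / 4) +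
      ((3 + 1 : ℕ) : ℝ) * (c t / 4) = 1
    push_cast
    ring

private theorem ri_q4 (a c φ : ℝ) : ri q4 (wL (bp φ) (wt a c)) =
    (1 - a - c) * (1 / 4 + (Real.sin φ * Real.cos φ) ^ 2 / 4) := by
  rw [ri_wL q4_rho, Fin.sum_univ_three]
  have hs : Real.sqrt 2 ^ 2 = 2 := Real.sq_sqrt (by norm_num)
  have h := Real.sin_sq_add_cos_sq φ
  have h0 : q4 (bp φ 0) = 0 := by
    unfold q4
    show (1 : ℝ) ^ 2 * 0 ^ 2 + 0 ^ 2 * 0 ^ 2 + 0 ^ 2 * 1 ^ 2 = 0
    norm_num
  have h2 : q4 (bp φ 2) = 0 := by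
    unfold q4
    show (0 : ℝ) ^ 2 * 0 ^ 2 + 0 ^ 2 * 1 ^ 2 + 1 ^ 2 * 0 ^ 2 = 0
    norm_num
  have h1 : q4 (bp φ 1) = 1 / 4 + (Real.sin φ * Real.cos φ) ^ 2 / 4 := by
    unfold q4
    show (Real.sin φ / Real.sqrt 2) ^ 2 * (1 / Real.sqrt 2) ^ 2 +
      (1 / Real.sqrt 2) ^ 2 * (Real.cos φ / Real.sqrt 2) ^ 2 +
      (Real.cos φ / Real.sqrt 2) ^ 2 * (Real.sin φ / Real.sqrt 2) ^ 2 = _
    rw [div_pow, div_pow, div_pow, hs]
    linear_combination h / 4
  rw [h0, h1, h2]
  show a * 0 + (1 - a - c) * _ + c * 0 = _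
  ring

private theorem ri_s4 (a c φ : ℝ) : ri s4 (wL (bp φ) (wt a c)) =
    a + (1 - a - c) * (1 - 3 / 2 * Real.cos φ ^ 2) - 2 * c := by
  rw [ri_wL s4_rho, Fin.sum_univ_three]
  have hs : Real.sqrt 2 ^ 2 = 2 := Real.sq_sqrt (by norm_num)
  have h0 : s4 (bp φ 0) = 1 := by
    unfold s4
    show 1 - 3 * (0 : ℝ) ^ 2 = 1
    norm_num
  have h2 : s4 (bp φ 2) = -2 := by
    unfold s4
    show 1 - 3 * (1 : ℝ) ^ 2 = -2
    norm_num
  have h1 : s4 (bp φ 1) = 1 - 3 / 2 * Real.cos φ ^ 2 := by
    unfold s4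
    show 1 - 3 * (Real.cos φ / Real.sqrt 2) ^ 2 = _
    rw [div_pow, hs]
    ring
  rw [h0, h1, h2]
  show a * 1 + (1 - a - c) * _ + c * (-2) = _
  ring

/-! ## The four paths -/

private theorem mk4_ext {r : ℝ} (hr : r ≤ Real.pi / 2) {a c φ a' c' φ' : ℝ} {ha hc hac h1 h2}
    {ha' hc' hac' h1' h2'} (e1 : a = a') (e2 : c = c') (e3 : a + c = 1 ∨ φ = φ') :
    mk4 hr a c φ ha hc hac h1 h2 = mk4 hr a' c' φ' ha' hc' hac' h1' h2' := by
  subst e1
  subst e2
  rcases e3 with h | h
  · apply AVR.ext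
    rw [mk4_w, mk4_w]
    unfold wL
    refine Finset.sum_congr rfl fun q hq => ?_
    clear hq
    obtain ⟨i, v⟩ := q
    have hi : i = 0 ∨ i = 1 ∨ i = 2 := by
      revert i
      decide
    rcases hi with rfl | rfl | rfl
    · rfl
    · have h0 : wt a c 1 = 0 := by
        show 1 - a - c = 0
        linarith
      simp only [h0, zero_div, Finsupp.single_zero]
    · rfl
  · subst h
    rfl

/-- the clamped parameter of the middle part of the first path -/
private noncomputable def ph (t : ℝ) : ℝ := Real.pi / 2 * cl (3 * cl t - 1)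

private noncomputable def fa (t : ℝ) : ℝ := max 0 (1 / 2 - 3 / 2 * cl t)

private noncomputable def fc (t : ℝ) : ℝ := max 0 (3 / 2 * cl t - 1)

private theorem fa_bd (t : ℝ) : fa t ≤ 1 / 2 := by
  have := cl_nonneg t
  exact max_le (by norm_num) (by linarith)

private theorem fc_bd (t : ℝ) : fc t ≤ 1 / 2 := by
  have := cl_le_one t
  exact max_le (by norm_num) (by linarith)

private theorem fac (t : ℝ) : fa t = 0 ∨ fc t = 0 := by
  rcases le_total (cl t) (1 / 2) with h | h
  · right
    exact max_eq_left (by linarith)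
  · left
    exact max_eq_left (by linarith)

private theorem fac_le (t : ℝ) : fa t + fc t ≤ 1 / 2 := by
  have h1 := fa_bd t
  have h2 := fc_bd t
  rcases fac t with h | h
  · rw [h]; linarith
  · rw [h]; linarith

private theorem fa_sin (t : ℝ) : fa t = 0 ∨ Real.sin (ph t) = 0 := by
  rcases le_total (cl t) (1 / 3) with h | h
  · right
    have h1 : cl (3 * cl t - 1) = 0 := by
      unfold cl
      refine max_eq_left ?_
      refine (min_le_left _ _).trans ?_
      have h2 : max 0 (min t 1) = cl t := rfl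
      rw [h2]
      linarith
    unfold ph
    rw [h1, mul_zero, Real.sin_zero]
  · left
    exact max_eq_left (by linarith)

private theorem fc_cos (t : ℝ) : fc t = 0 ∨ Real.cos (ph t) = 0 := by
  rcases le_total (cl t) (2 / 3) with h | h
  · left
    exact max_eq_left (by linarith)
  · right
    have h1 : cl (3 * cl t - 1) = 1 := by
      unfold cl
      have h2 : max 0 (min t 1) = cl t := rfl
      rw [h2, min_eq_right (by linarith)]
      exact max_eq_right zero_le_one
    unfold ph
    rw [h1, mul_one, Real.cos_pi_div_two]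

/-- a loop of measures on the two-sphere, invariant under the three rotations by `π` -/
theorem exists_loop4 {r : ℝ} (hr : r ≤ Real.pi / 2) :
    ∃ pth : Fin 4 → ℝ → AVR (geo 2) r, (∀ i, Continuous (pth i)) ∧
      (∀ i t k x, (pth i t).w (rho k x) = (pth i t).w x) ∧
      (∀ i, pth i 1 = pth (i + 1) 0) ∧
      (∀ t, 1 / 10 < ri q4 (pth 0 t).w) ∧
      |ri q4 (pth 0 0).w - 1 / 10| < ri s4 (pth 0 0).w ∧
      |ri q4 (pth 0 1).w - 1 / 10| < -ri s4 (pth 0 1).w ∧
      (∀ i, i ≠ 0 → ∀ t, ri q4 (pth i t).w - 1 / 10 < |ri s4 (pth i t).w|) := by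
  have kcl := cl_continuous
  have k0 := cl_nonneg
  have k1 := cl_le_one
  have kfa : Continuous fa :=
    continuous_const.max (continuous_const.sub (continuous_const.mul kcl))
  have kfc : Continuous fc :=
    continuous_const.max ((continuous_const.mul kcl).sub continuous_const)
  have kph : Continuous ph :=
    continuous_const.mul (kcl.comp ((continuous_const.mul kcl).sub continuous_const))
  have hsin : Real.sin 0 = 0 := Real.sin_zero
  have hcos : Real.cos (Real.pi / 2) = 0 := Real.cos_pi_div_two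
  let P0 : ℝ → AVR (geo 2) r := fun t => mk4 hr (fa t) (fc t) (ph t) (le_max_left _ _)
    (le_max_left _ _) (by linarith [fac_le t]) ((fa_sin t).imp_right Or.inr)
    ((fc_cos t).imp_right Or.inr)
  let P1 : ℝ → AVR (geo 2) r := fun t => mk4 hr 0 ((1 + cl t) / 2) (Real.pi / 2) le_rfl
    (by linarith [k0 t]) (by linarith [k1 t]) (Or.inl rfl) (Or.inr (Or.inr hcos))
  let P2 : ℝ → AVR (geo 2) r := fun t => mk4 hr (cl t) (1 - cl t) 0 (k0 t)
    (by linarith [k1 t]) (by linarith) (Or.inr (Or.inl (by ring))) (Or.inr (Or.inl (by ring)))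
  let P3 : ℝ → AVR (geo 2) r := fun t => mk4 hr (1 - cl t / 2) 0 0 (by linarith [k1 t])
    le_rfl (by linarith [k0 t]) (Or.inr (Or.inr hsin)) (Or.inl rfl)
  have c0 : Continuous P0 := cont_mk4 hr fa fc ph (fun _ => le_max_left _ _)
    (fun _ => le_max_left _ _) (fun t => by linarith [fac_le t])
    (fun t => (fa_sin t).imp_right Or.inr) (fun t => (fc_cos t).imp_right Or.inr) kfa kfc kph
  have c1 : Continuous P1 := cont_mk4 hr (fun _ => 0) (fun t => (1 + cl t) / 2)
    (fun _ => Real.pi / 2) (fun _ => le_rfl) (fun t => by linarith [k0 t])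
    (fun t => by linarith [k1 t]) (fun _ => Or.inl rfl) (fun _ => Or.inr (Or.inr hcos))
    continuous_const ((continuous_const.add kcl).div_const _) continuous_const
  have c2 : Continuous P2 := cont_mk4 hr (fun t => cl t) (fun t => 1 - cl t)
    (fun _ => 0) (fun t => k0 t) (fun t => by linarith [k1 t])
    (fun t => by linarith) (fun _ => Or.inr (Or.inl (by ring)))
    (fun _ => Or.inr (Or.inl (by ring))) kcl (continuous_const.sub kcl) continuous_const
  have c3 : Continuous P3 := cont_mk4 hr (fun t => 1 - cl t / 2) (fun _ => 0)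
    (fun _ => 0) (fun t => by linarith [k1 t]) (fun _ => le_rfl) (fun t => by linarith [k0 t])
    (fun _ => Or.inr (Or.inr hsin)) (fun _ => Or.inl rfl)
    (continuous_const.sub (kcl.div_const _)) continuous_const continuous_const
  have hc4 : ∀ i : Fin 4, i = 0 ∨ i = 1 ∨ i = 2 ∨ i = 3 := by decide
  have fa0 : fa 0 = 1 / 2 := by
    unfold fa
    rw [cl_zero]
    norm_num
  have fc0 : fc 0 = 0 := by
    unfold fc
    rw [cl_zero]
    norm_num
  have ph0 : ph 0 = 0 := by
    unfold ph
    rw [cl_zero]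
    unfold cl
    norm_num
  have fa1 : fa 1 = 0 := by
    unfold fa
    rw [cl_one]
    norm_num
  have fc1 : fc 1 = 1 / 2 := by
    unfold fc
    rw [cl_one]
    norm_num
  have ph1 : ph 1 = Real.pi / 2 := by
    unfold ph
    rw [cl_one]
    unfold cl
    norm_num
  refine ⟨![P0, P1, P2, P3], ?_, ?_, ?_, ?_, ?_, ?_, ?_⟩
  · intro i
    rcases hc4 i with rfl | rfl | rfl | rfl
    · exact c0
    · exact c1
    · exact c2
    · exact c3
  · intro i t k x
    rcases hc4 i with rfl | rfl | rfl | rfl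
    · exact wL_rho _ _ _ _
    · exact wL_rho _ _ _ _
    · exact wL_rho _ _ _ _
    · exact wL_rho _ _ _ _
  · intro i
    rcases hc4 i with rfl | rfl | rfl | rfl
    · show P0 1 = P1 0
      exact mk4_ext hr fa1 (by rw [fc1, cl_zero]; norm_num) (Or.inr ph1)
    · show P1 1 = P2 0
      exact mk4_ext hr (by rw [cl_zero]) (by rw [cl_one, cl_zero]; norm_num)
        (Or.inl (by rw [cl_one]; norm_num))
    · show P2 1 = P3 0
      exact mk4_ext hr (by rw [cl_one, cl_zero]; norm_num) (by rw [cl_one]; norm_num)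
        (Or.inl (by rw [cl_one]; norm_num))
    · show P3 1 = P0 0
      exact mk4_ext hr (by rw [cl_one, fa0]; norm_num) fc0.symm (Or.inr ph0.symm)
  · intro t
    show 1 / 10 < ri q4 (wL (bp (ph t)) (wt (fa t) (fc t)))
    rw [ri_q4]
    have h1 := fac_le t
    have h2 := sq_nonneg (Real.sin (ph t) * Real.cos (ph t))
    nlinarith
  · show |ri q4 (wL (bp (ph 0)) (wt (fa 0) (fc 0))) - 1 / 10| <
      ri s4 (wL (bp (ph 0)) (wt (fa 0) (fc 0)))
    rw [ri_q4, ri_s4, ph0, fa0, fc0, Real.sin_zero, Real.cos_zero]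
    norm_num [abs_of_pos]
  · show |ri q4 (wL (bp (ph 1)) (wt (fa 1) (fc 1))) - 1 / 10| <
      -ri s4 (wL (bp (ph 1)) (wt (fa 1) (fc 1)))
    rw [ri_q4, ri_s4, ph1, fa1, fc1, Real.sin_pi_div_two, Real.cos_pi_div_two]
    norm_num [abs_of_pos]
  · intro i hi t
    have h0 := k0 t
    have h1 := k1 t
    rcases hc4 i with rfl | rfl | rfl | rfl
    · exact absurd rfl hi
    · show ri q4 (wL (bp (Real.pi / 2)) (wt 0 ((1 + cl t) / 2))) - 1 / 10 <
        |ri s4 (wL (bp (Real.pi / 2)) (wt 0 ((1 + cl t) / 2)))|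
      rw [ri_q4, ri_s4, Real.sin_pi_div_two, Real.cos_pi_div_two]
      refine lt_of_lt_of_le ?_ (neg_le_abs _)
      nlinarith
    · show ri q4 (wL (bp 0) (wt (cl t) (1 - cl t))) - 1 / 10 <
        |ri s4 (wL (bp 0) (wt (cl t) (1 - cl t)))|
      rw [ri_q4]
      refine lt_of_lt_of_le ?_ (abs_nonneg _)
      have h3 : 1 - cl t - (1 - cl t) = 0 := by ring
      rw [h3, zero_mul]
      norm_num
    · show ri q4 (wL (bp 0) (wt (1 - cl t / 2) 0)) - 1 / 10 <
        |ri s4 (wL (bp 0) (wt (1 - cl t / 2) 0))|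
      rw [ri_q4, ri_s4, Real.sin_zero, Real.cos_zero]
      refine lt_of_lt_of_le ?_ (le_abs_self _)
      nlinarith

end Pool.Agent.H89.AVB
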