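import Pool.Agent.H89.AVB.Tow
import Pool.Agent.H89.AVB.Loop4
import Pool.Agent.H70.AV.Key4

/-!
# Spheres of even dimension at scales between `arccos (1 / 3)` and the right angle
-/

namespace Pool.Agent.H89.AVB

open Pool.Agent.H73.Avr hiding cl
open Pool.Agent.H71.AV

private theorem lip_sq {n : ℕ} (i : Fin (n + 1)) (x y : Sph n) :
    |x.1 i ^ 2 - y.1 i ^ 2| ≤ 2 * geo n x y := by
  have h := rmon_lipschitz (n := n) ![i, i] x y
  unfold rmon at h
  rw [Fin.prod_univ_two, Fin.prod_univ_two] at h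
  simp only [Matrix.cons_val_zero, Matrix.cons_val_one] at h
  rw [sq, sq]
  exact_mod_cast h

private theorem lip_mon {n : ℕ} (i j : Fin (n + 1)) (x y : Sph n) :
    |x.1 i ^ 2 * x.1 j ^ 2 - y.1 i ^ 2 * y.1 j ^ 2| ≤ 4 * geo n x y := by
  have h := rmon_lipschitz (n := n) ![i, i, j, j] x y
  unfold rmon at h
  rw [Fin.prod_univ_four, Fin.prod_univ_four] at h
  have e : ∀ z : Sph n, z.1 (![i, i, j, j] 0) * z.1 (![i, i, j, j] 1) * z.1 (![i, i, j, j] 2) *
      z.1 (![i, i, j, j] 3) = z.1 i ^ 2 * z.1 j ^ 2 := by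
    intro z
    show z.1 i * z.1 i * z.1 j * z.1 j = _
    ring
  rw [e, e] at h
  exact_mod_cast h

/-- the first three indices -/
def i0 (m : ℕ) : Fin (2 * m + 2 + 1) := ⟨0, by omega⟩
def i1 (m : ℕ) : Fin (2 * m + 2 + 1) := ⟨1, by omega⟩
def i2 (m : ℕ) : Fin (2 * m + 2 + 1) := ⟨2, by omega⟩

theorem inc_i0 (m : ℕ) (y : Sph 2) : (H71.SM.inc m y).1 (i0 m) = y.1 0 := by
  rw [H71.SM.inc_apply, dif_pos (by show 0 < 3; norm_num)]
  rfl

theorem inc_i1 (m : ℕ) (y : Sph 2) : (H71.SM.inc m y).1 (i1 m) = y.1 1 := by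
  rw [H71.SM.inc_apply, dif_pos (by show 1 < 3; norm_num)]
  rfl

theorem inc_i2 (m : ℕ) (y : Sph 2) : (H71.SM.inc m y).1 (i2 m) = y.1 2 := by
  rw [H71.SM.inc_apply, dif_pos (by show 2 < 3; norm_num)]
  rfl

/-- `q4` in the first three coordinates -/
noncomputable def q4n (m : ℕ) (x : Sph (2 * m + 2)) : ℝ :=
  x.1 (i0 m) ^ 2 * x.1 (i1 m) ^ 2 + x.1 (i1 m) ^ 2 * x.1 (i2 m) ^ 2 +
    x.1 (i2 m) ^ 2 * x.1 (i0 m) ^ 2

/-- `s4` in the first three coordinates -/
noncomputable def s4n (m : ℕ) (x : Sph (2 * m + 2)) : ℝ := 1 - 3 * x.1 (i2 m) ^ 2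

theorem continuous_q4n (m : ℕ) {r : ℝ} :
    Continuous fun μ : AVR (geo (2 * m + 2)) r => ri (q4n m) μ.w := by
  refine continuous_ri (L := 12) (by norm_num) fun x y => ?_
  have h1 := abs_le.1 (lip_mon (i0 m) (i1 m) x y)
  have h2 := abs_le.1 (lip_mon (i1 m) (i2 m) x y)
  have h3 := abs_le.1 (lip_mon (i2 m) (i0 m) x y)
  unfold q4n
  rw [abs_le]
  constructor
  · linarith [h1.1, h2.1, h3.1]
  · linarith [h1.2, h2.2, h3.2]

theorem continuous_s4n (m : ℕ) {r : ℝ} :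
    Continuous fun μ : AVR (geo (2 * m + 2)) r => ri (s4n m) μ.w := by
  refine continuous_ri (L := 6) (by norm_num) fun x y => ?_
  have h1 := abs_le.1 (lip_sq (i2 m) x y)
  unfold s4n
  rw [abs_le]
  constructor
  · linarith [h1.2]
  · linarith [h1.1]

theorem ri_q4n (m : ℕ) {r : ℝ} (ν : AVR (geo 2) r) :
    ri (q4n m) (H71.SM.push m ν).w = ri q4 ν.w := by
  have h : (fun y => q4n m (H71.SM.inc m y)) = q4 := by
    funext y
    unfold q4n q4
    rw [inc_i0, inc_i1, inc_i2]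
  rw [H71.SM.ri_push, h]

theorem ri_s4n (m : ℕ) {r : ℝ} (ν : AVR (geo 2) r) :
    ri (s4n m) (H71.SM.push m ν).w = ri s4 ν.w := by
  have h : (fun y => s4n m (H71.SM.inc m y)) = s4 := by
    funext y
    unfold s4n s4
    rw [inc_i2]
  rw [H71.SM.ri_push, h]

/-- the sign pattern of the rotation by `π` about the axis `k` -/
def pat (k : Fin 3) : Fin 3 → ℤˣ := fun i => if i = k then 1 else -1

theorem sg2_pat (k : Fin 3) (y : Sph 2) : sg2 (pat k) y = rho k y := by
  apply Subtype.ext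
  ext i
  rw [sg2_apply, rho_apply]
  unfold pat sr
  split_ifs
  · norm_num
  · norm_num

/-- the two generators -/
def E4 (j : ℕ) : Fin 3 → ℤˣ := pat (if j = 0 then 0 else 1)

theorem not_contractible_even_gap (m : ℕ) {r : ℝ} (h1 : Real.arccos (1 / 3) ≤ r)
    (h2 : r ≤ Real.pi / 2) : ¬ ContractibleSpace (AVR (geo (2 * m + 2)) r) := by
  intro hc
  have hr : 0 < r := by
    have h3 : (0 : ℝ) < Real.arccos (1 / 3) := Real.arccos_pos.2 (by norm_num)
    linarith
  have hcos : Real.cos r ≤ 1 / 3 := by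
    have h3 : Real.cos r ≤ Real.cos (Real.arccos (1 / 3)) :=
      Real.cos_le_cos_of_nonneg_of_le_pi (Real.arccos_nonneg _) (by linarith [Real.pi_pos]) h1
    rwa [Real.cos_arccos (by norm_num) (by norm_num)] at h3
  obtain ⟨pth, hpc, hpi, hglue, h0, hA, hB, hrest⟩ := exists_loop4 h2
  refine even_loop m hr hc 2 E4 (fun μ => ri (s4n m) μ.w) (fun μ => ri (q4n m) μ.w - 1 / 10)
    (continuous_s4n m) ((continuous_q4n m).sub continuous_const) ?_ pth hpc ?_ hglue ?_ ?_ ?_ ?_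
  · intro ν hν ht hh
    simp only [ri_s4n, ri_q4n] at ht hh
    have k0 : ∀ y, ν.w (rho 0 y) = ν.w y := by
      intro y
      have h3 := hν 0 (by norm_num) y
      rw [← sg2_pat]
      exact h3
    have k1 : ∀ y, ν.w (rho 1 y) = ν.w y := by
      intro y
      have h3 := hν 1 (by norm_num) y
      rw [← sg2_pat]
      exact h3
    have k2 : ∀ y, ν.w (rho 2 y) = ν.w y := by
      intro y
      rw [← rho_mul (j := 0) (k := 2) (l := 1) (by decide) (by decide) (by decide) y, k1, k0]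
    refine H70.AV4.key4 hr.le hcos ν ?_ (by linarith) ht
    intro k x
    have hk : k = 0 ∨ k = 1 ∨ k = 2 := by
      clear x
      revert k
      decide
    rcases hk with rfl | rfl | rfl
    · exact k0 x
    · exact k1 x
    · exact k2 x
  · intro i u j _ y
    unfold E4
    rw [sg2_pat]
    exact hpi i u _ y
  · intro u
    show 0 < ri (q4n m) (H71.SM.push m (pth 0 u)).w - 1 / 10
    rw [ri_q4n]
    linarith [h0 u]
  · show |ri (q4n m) (H71.SM.push m (pth 0 0)).w - 1 / 10| <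
      ri (s4n m) (H71.SM.push m (pth 0 0)).w
    rw [ri_q4n, ri_s4n]
    exact hA
  · show |ri (q4n m) (H71.SM.push m (pth 0 1)).w - 1 / 10| <
      -ri (s4n m) (H71.SM.push m (pth 0 1)).w
    rw [ri_q4n, ri_s4n]
    exact hB
  · intro i hi u
    show ri (q4n m) (H71.SM.push m (pth i u)).w - 1 / 10 <
      |ri (s4n m) (H71.SM.push m (pth i u)).w|
    rw [ri_q4n, ri_s4n]
    exact hrest i hi u

end Pool.Agent.H89.AVB
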