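import Pool.Agent.H89.AVB.Final4
import Pool.Agent.H70.AV.Key8

/-!
# Spheres of even dimension at scales between `π / 3` and `arccos (1 / 3)`
-/

namespace Pool.Agent.H89.AVB

open Pool.Agent.H73.Avr hiding cl
open Pool.Agent.H71.AV

/-- the product of the squares of the first three coordinates -/
noncomputable def p8n (m : ℕ) (x : Sph (2 * m + 2)) : ℝ :=
  x.1 (i0 m) ^ 2 * x.1 (i1 m) ^ 2 * x.1 (i2 m) ^ 2

theorem continuous_p8n (m : ℕ) {r : ℝ} :
    Continuous fun μ : AVR (geo (2 * m + 2)) r => ri (p8n m) μ.w := by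
  refine continuous_ri (L := 6) (by norm_num) fun x y => ?_
  have h := rmon_lipschitz (n := 2 * m + 2) ![i0 m, i0 m, i1 m, i1 m, i2 m, i2 m] x y
  unfold rmon at h
  have e : ∀ z : Sph (2 * m + 2), ∏ i, z.1 (![i0 m, i0 m, i1 m, i1 m, i2 m, i2 m] i) =
      p8n m z := by
    intro z
    rw [Fin.prod_univ_six]
    show z.1 (i0 m) * z.1 (i0 m) * z.1 (i1 m) * z.1 (i1 m) * z.1 (i2 m) * z.1 (i2 m) = _
    unfold p8n
    ring
  rw [e, e] at h
  exact_mod_cast h

theorem ri_p8n (m : ℕ) {r : ℝ} (ν : AVR (geo 2) r) :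
    ri (p8n m) (H71.SM.push m ν).w =
      ri (fun x => x.1 0 ^ 2 * x.1 1 ^ 2 * x.1 2 ^ 2) ν.w := by
  have h : (fun y => p8n m (H71.SM.inc m y)) =
      fun x : Sph 2 => x.1 0 ^ 2 * x.1 1 ^ 2 * x.1 2 ^ 2 := by
    funext y
    unfold p8n
    rw [inc_i0, inc_i1, inc_i2]
  rw [H71.SM.ri_push, h]

/-- the sign pattern which negates the coordinate `j` -/
def pat8 (j : Fin 3) : Fin 3 → ℤˣ := fun i => if i = j then -1 else 1

theorem sg2_pat8 (j : Fin 3) (y : Sph 2) : sg2 (pat8 j) y = H70.AV.flip j y := by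
  apply Subtype.ext
  ext i
  rw [sg2_apply, H70.AV.flip_apply]
  unfold pat8 sr
  split_ifs
  · norm_num
  · norm_num

/-- the three generators -/
def E8 (j : ℕ) : Fin 3 → ℤˣ := pat8 (if j = 0 then 0 else if j = 1 then 1 else 2)

theorem not_contractible_even_cube (m : ℕ) {r : ℝ} (h1 : Real.pi / 3 < r)
    (h2 : r ≤ Real.arccos (1 / 3)) : ¬ ContractibleSpace (AVR (geo (2 * m + 2)) r) := by
  intro hc
  have hr : 0 < r := by
    have := Real.pi_pos
    linarith
  obtain ⟨a, ha, hav⟩ := H70.AV.exists_cube hr.le h2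
  obtain ⟨b, hb, hbv⟩ := H70.AV.exists_pair hr.le (h2.trans (Real.arccos_le_pi _))
  refine even_disc m hr hc 3 E8 (fun μ => ri (p8n m) μ.w - 1 / 64)
    ((continuous_p8n m).sub continuous_const) ?_ a b ?_ ?_ ?_ ?_
  · intro ν hν h3
    simp only [ri_p8n] at h3
    refine H70.AV.key8 h1 ν ?_ (by linarith)
    intro j x
    have hj : j = 0 ∨ j = 1 ∨ j = 2 := by
      clear x
      revert j
      decide
    rcases hj with rfl | rfl | rfl
    · rw [← sg2_pat8]
      exact hν 0 (by norm_num) x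
    · rw [← sg2_pat8]
      exact hν 1 (by norm_num) x
    · rw [← sg2_pat8]
      exact hν 2 (by norm_num) x
  · intro j _ y
    unfold E8
    rw [sg2_pat8]
    exact ha _ _
  · intro j _ y
    unfold E8
    rw [sg2_pat8]
    exact hb _ _
  · show 0 < ri (p8n m) (H71.SM.push m a).w - 1 / 64
    rw [ri_p8n, hav]
    norm_num
  · show ri (p8n m) (H71.SM.push m b).w - 1 / 64 < 0
    rw [ri_p8n, hbv]
    norm_num

end Pool.Agent.H89.AVB
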