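import Pool.Agent.H89.AVB.LB
import Pool.Agent.H62.AV.Oct
import Pool.Agent.H53.SM.Key6

/-!
# Spheres of even dimension, octahedral two-spheres of measures
-/

namespace Pool.Agent.H89.AVB

open Pool.Agent.H73.Avr hiding cl
open Pool.Agent.H71.AV

/-- the criterion for a triple of functions of the first three coordinates -/
theorem not_contractible_of_key (m : ℕ) {r : ℝ} (hr : 0 < r) (h1 : r ≤ Real.pi / 3)
    (g : Fin 3 → ℝ → ℝ → ℝ → ℝ)
    (hg : ∀ k, LB fun x : Sph (2 * m + 2) => g k (x.1 (i0 m)) (x.1 (i1 m)) (x.1 (i2 m)))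
    (hev : ∀ (k j : Fin 3) (x : Sph 2), g k ((H70.AV.flip j x).1 0) ((H70.AV.flip j x).1 1)
      ((H70.AV.flip j x).1 2) = g k (x.1 0) (x.1 1) (x.1 2))
    (hne : ∀ ν : AVR (geo 2) r, (∀ j x, ν.w (H70.AV.flip j x) = ν.w x) →
      ∃ k, ri (fun x => g k (x.1 0) (x.1 1) (x.1 2)) ν.w ≠ 0)
    (hax : ∀ (k i : Fin 3) (x : Sph 2), (∀ j, x.1 j = if j = i then 1 else 0) →
      0 ≤ g k (x.1 0) (x.1 1) (x.1 2) ∧ (k ≠ i → g k (x.1 0) (x.1 1) (x.1 2) = 0))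
    (hp : ∀ (k i : Fin 3) (x : Sph 2), x.1 i ^ 2 = (1 + Real.cos r) / 2 →
      x.1 (i + 1) ^ 2 = (1 - Real.cos r) / 2 → x.1 (i + 2) = 0 →
      g k (x.1 0) (x.1 1) (x.1 2) ≤ 0 ∧ (k ≠ i → g k (x.1 0) (x.1 1) (x.1 2) = 0)) :
    ¬ ContractibleSpace (AVR (geo (2 * m + 2)) r) := by
  intro hc
  obtain ⟨U, D, hUc, hDc, hUY, hDY, hb1, hb2, hb3, hb4, hs⟩ := H62.AV.exists_oct_signs hr h1
  have ea : ∀ i j, (H62.AV.ax i).1 j = if j = i then 1 else 0 := by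
    intro i j
    fin_cases i <;> fin_cases j <;> rfl
  have ep : ∀ i, (H62.AV.pp r i).1 i ^ 2 = (1 + Real.cos r) / 2 ∧
      (H62.AV.pp r i).1 (i + 1) ^ 2 = (1 - Real.cos r) / 2 ∧ (H62.AV.pp r i).1 (i + 2) = 0 := by
    intro i
    have c1 : Real.cos (r / 2) ^ 2 = (1 + Real.cos r) / 2 := by
      rw [Real.cos_sq, mul_div_cancel₀ _ (two_ne_zero)]
      ring
    have c2 : Real.sin (r / 2) ^ 2 = (1 - Real.cos r) / 2 := by
      rw [Real.sin_sq, c1]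
      ring
    fin_cases i
    · exact ⟨c1, c2, rfl⟩
    · exact ⟨c1, c2, rfl⟩
    · exact ⟨c1, c2, rfl⟩
  obtain ⟨s1, s2, s3, s4, s5, s6, s7, s8, s9⟩ :=
    hs (fun k x => g k (x.1 0) (x.1 1) (x.1 2)) (fun k j x => hev k j x)
      (fun k j hkj => ⟨(hax k j _ (ea j)).2 hkj, (hp k j _ (ep j).1 (ep j).2.1 (ep j).2.2).2 hkj⟩)
      (fun k => ⟨(hax k k _ (ea k)).1, (hp k k _ (ep k).1 (ep k).2.1 (ep k).2.2).1⟩)
  exact even_oct m hr hc g hg hne U D hUc hDc hUY hDY hb1 hb2 hb3 hb4 s1 s2 s3 s4 s5 s6 s7 s8 s9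

/-- the three functions of `Key6` -/
noncomputable def g6 (q : ℝ) (k : Fin 3) (a b c : ℝ) : ℝ :=
  H53.SM.pp q (a ^ 2) (b ^ 2) (c ^ 2) (if k = 0 then a ^ 2 else if k = 1 then b ^ 2 else c ^ 2)

theorem g6_eq (q : ℝ) (k : Fin 3) (x : Sph 2) :
    g6 q k (x.1 0) (x.1 1) (x.1 2) = H53.SM.ph q k x := by
  unfold g6 H53.SM.ph
  fin_cases k <;> rfl

theorem LB_g6 (m : ℕ) (q : ℝ) (k : Fin 3) :
    LB fun x : Sph (2 * m + 2) => g6 q k (x.1 (i0 m)) (x.1 (i1 m)) (x.1 (i2 m)) := by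
  have c0 : LB fun x : Sph (2 * m + 2) => x.1 (i0 m) ^ 2 := (LB.coord _).sq
  have c1 : LB fun x : Sph (2 * m + 2) => x.1 (i1 m) ^ 2 := (LB.coord _).sq
  have c2 : LB fun x : Sph (2 * m + 2) => x.1 (i2 m) ^ 2 := (LB.coord _).sq
  have key : ∀ z : Sph (2 * m + 2) → ℝ, LB z → LB fun x : Sph (2 * m + 2) =>
      H53.SM.pp q (x.1 (i0 m) ^ 2) (x.1 (i1 m) ^ 2) (x.1 (i2 m) ^ 2) (z x) := by
    intro z hz
    exact ((hz.mul (hz.sub (LB.const q))).mul (hz.sub (LB.const _))).add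
      (((LB.const 8000).mul ((c0.mul c1).mul c2)).mul (hz.sub (LB.const _)))
  fin_cases k
  · exact key _ c0
  · exact key _ c1
  · exact key _ c2

private theorem pp_zero {q a b c : ℝ} (z : ℝ) (h : a * b * c = 0) :
    H53.SM.pp q a b c z = z * (z - q) * (z - 9 / 10) := by
  unfold H53.SM.pp
  rw [h]
  ring

theorem not_contractible_even_oct6 (m : ℕ) {r : ℝ} (h1 : Real.arccos (2 / 3) ≤ r)
    (h2 : r ≤ Real.pi / 3) : ¬ ContractibleSpace (AVR (geo (2 * m + 2)) r) := by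
  have hr : 0 < r := lt_of_lt_of_le (Real.arccos_pos.2 (by norm_num)) h1
  have hpi := Real.pi_pos
  have c1 : 1 / 2 ≤ Real.cos r := by
    rw [← Real.cos_pi_div_three]
    exact Real.cos_le_cos_of_nonneg_of_le_pi hr.le (by linarith) h2
  have c2 : Real.cos r ≤ 2 / 3 := by
    rw [← Real.cos_arccos (x := 2 / 3) (by norm_num) (by norm_num)]
    exact Real.cos_le_cos_of_nonneg_of_le_pi (Real.arccos_nonneg _) (by linarith) h1
  set c := Real.cos r with hcdef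
  refine not_contractible_of_key m hr h2 (g6 ((1 - c) / 2)) (LB_g6 m _) ?_ ?_ ?_ ?_
  · intro k j x
    rw [g6_eq, g6_eq]
    unfold H53.SM.ph
    have h : ∀ i, (H70.AV.flip j x).1 i ^ 2 = x.1 i ^ 2 := by
      intro i
      rw [H70.AV.flip_apply]
      split_ifs
      · ring
      · rfl
    rw [h, h, h, h]
  · intro ν hν
    obtain ⟨k, hk⟩ := H53.SM.key6 hr.le c1 c2 ν hν
    refine ⟨k, ?_⟩
    simp only [g6_eq]
    exact hk
  · intro k i x hx
    have h0 : x.1 0 ^ 2 * x.1 1 ^ 2 * x.1 2 ^ 2 = 0 := by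
      rw [hx, hx, hx]
      fin_cases i <;> simp
    rw [g6_eq]
    unfold H53.SM.ph
    rw [pp_zero _ h0, hx]
    constructor
    · split_ifs
      · nlinarith
      · norm_num
    · intro h
      rw [if_neg h]
      norm_num
  · intro k i x hx1 hx2 hx3
    rw [g6_eq]
    unfold H53.SM.ph
    have hx3' : x.1 (i + 2) ^ 2 = 0 := by rw [hx3]; ring
    have h0 : x.1 0 ^ 2 * x.1 1 ^ 2 * x.1 2 ^ 2 = 0 := by
      have h : i + 2 = 0 ∨ i + 2 = 1 ∨ i + 2 = 2 := by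
        clear hx1 hx2 hx3 hx3'
        revert i
        decide
      rcases h with h | h | h <;> rw [h] at hx3' <;> rw [hx3'] <;> ring
    rw [pp_zero _ h0]
    have hk : k = i ∨ k = i + 1 ∨ k = i + 2 := by
      clear hx1 hx2 hx3 hx3'
      revert i k
      decide
    rcases hk with rfl | rfl | rfl
    · refine ⟨?_, fun h => absurd rfl h⟩
      rw [hx1, ← hcdef]
      have h3 : (1 + c) / 2 * ((1 + c) / 2 - (1 - c) / 2) * ((1 + c) / 2 - 9 / 10) =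
          -((1 + c) / 2 * c * (9 / 10 - (1 + c) / 2)) := by ring
      rw [h3, neg_nonpos]
      have h4 : 0 ≤ 9 / 10 - (1 + c) / 2 := by linarith
      have h5 : 0 ≤ c := by linarith
      positivity
    · rw [hx2, ← hcdef, sub_self, mul_zero, zero_mul]
      exact ⟨le_refl _, fun _ => rfl⟩
    · rw [hx3', zero_mul, zero_mul]
      exact ⟨le_refl _, fun _ => rfl⟩

end Pool.Agent.H89.AVB
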