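import Pool.Agent.H89.AVB.TowS
import Pool.Agent.H89.AVB.Final8

/-!
# Bounded Lipschitz functions and octahedral two-spheres of measures
-/

namespace Pool.Agent.H89.AVB

open Pool.Agent.H73.Avr hiding cl
open Pool.Agent.H71.AV

/-- bounded Lipschitz functions on the sphere -/
def LB {n : ℕ} (f : Sph n → ℝ) : Prop :=
  ∃ L : ℝ, 0 < L ∧ ∃ B : ℝ, 0 ≤ B ∧ (∀ x, |f x| ≤ B) ∧ ∀ x y, |f x - f y| ≤ L * geo n x y

theorem LB.coord {n : ℕ} (i : Fin (n + 1)) : LB fun x : Sph n => x.1 i :=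
  ⟨1, one_pos, 1, zero_le_one, fun x => abs_coord_le x i,
    fun x y => by rw [one_mul]; exact abs_coord_sub_le x y i⟩

theorem LB.const {n : ℕ} (c : ℝ) : LB fun _ : Sph n => c :=
  ⟨1, one_pos, |c|, abs_nonneg c, fun _ => le_refl _, fun x y => by
    rw [sub_self, abs_zero, one_mul]
    exact geo_nonneg x y⟩

theorem LB.add {n : ℕ} {f g : Sph n → ℝ} (hf : LB f) (hg : LB g) : LB fun x => f x + g x := by
  obtain ⟨L, hL, B, hB, h1, h2⟩ := hf
  obtain ⟨M, hM, C, hC, h3, h4⟩ := hg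
  refine ⟨L + M, by positivity, B + C, by positivity, fun x => ?_, fun x y => ?_⟩
  · exact (abs_add_le _ _).trans (add_le_add (h1 x) (h3 x))
  · have h5 : f x + g x - (f y + g y) = (f x - f y) + (g x - g y) := by ring
    rw [h5, add_mul]
    exact (abs_add_le _ _).trans (add_le_add (h2 x y) (h4 x y))

theorem LB.mul {n : ℕ} {f g : Sph n → ℝ} (hf : LB f) (hg : LB g) : LB fun x => f x * g x := by
  obtain ⟨L, hL, B, hB, h1, h2⟩ := hf
  obtain ⟨M, hM, C, hC, h3, h4⟩ := hg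
  refine ⟨B * M + C * L + 1, by positivity, B * C, by positivity, fun x => ?_, fun x y => ?_⟩
  · rw [abs_mul]
    exact mul_le_mul (h1 x) (h3 x) (abs_nonneg _) hB
  · have h5 : f x * g x - f y * g y = f x * (g x - g y) + g y * (f x - f y) := by ring
    have h6 := geo_nonneg x y
    rw [h5]
    refine (abs_add_le _ _).trans ?_
    rw [abs_mul, abs_mul]
    have h7 : |f x| * |g x - g y| ≤ B * (M * geo n x y) :=
      mul_le_mul (h1 x) (h4 x y) (abs_nonneg _) hB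
    have h8 : |g y| * |f x - f y| ≤ C * (L * geo n x y) :=
      mul_le_mul (h3 y) (h2 x y) (abs_nonneg _) hC
    nlinarith

theorem LB.neg {n : ℕ} {f : Sph n → ℝ} (hf : LB f) : LB fun x => -f x := by
  obtain ⟨L, hL, B, hB, h1, h2⟩ := hf
  refine ⟨L, hL, B, hB, fun x => by rw [abs_neg]; exact h1 x, fun x y => ?_⟩
  have h5 : -f x - -f y = -(f x - f y) := by ring
  rw [h5, abs_neg]
  exact h2 x y

theorem LB.sub {n : ℕ} {f g : Sph n → ℝ} (hf : LB f) (hg : LB g) : LB fun x => f x - g x := by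
  have h := hf.add hg.neg
  simpa only [sub_eq_add_neg] using h

theorem LB.sq {n : ℕ} {f : Sph n → ℝ} (hf : LB f) : LB fun x => f x ^ 2 := by
  have h := hf.mul hf
  simpa only [pow_two] using h

theorem LB.min {n : ℕ} {f g : Sph n → ℝ} (hf : LB f) (hg : LB g) :
    LB fun x => Min.min (f x) (g x) := by
  obtain ⟨L, hL, B, hB, h1, h2⟩ := hf
  obtain ⟨M, hM, C, hC, h3, h4⟩ := hg
  refine ⟨L + M, by positivity, B + C, by positivity, fun x => ?_, fun x y => ?_⟩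
  · have h5 := h1 x
    have h6 := h3 x
    show |Min.min (f x) (g x)| ≤ B + C
    rcases min_choice (f x) (g x) with h | h <;> rw [h] <;> linarith
  · have h5 := h2 x y
    have h6 := h4 x y
    have h7 := geo_nonneg x y
    refine (abs_min_sub_min_le_max _ _ _ _).trans (max_le ?_ ?_)
    · nlinarith
    · nlinarith

theorem LB.continuous {n : ℕ} {r : ℝ} {f : Sph n → ℝ} (hf : LB f) :
    Continuous fun μ : AVR (geo n) r => ri f μ.w := by
  obtain ⟨L, hL, B, hB, h1, h2⟩ := hf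
  exact continuous_ri hL h2

theorem ri_push_i (m : ℕ) {r : ℝ} (g : ℝ → ℝ → ℝ → ℝ) (ν : AVR (geo 2) r) :
    ri (fun x => g (x.1 (i0 m)) (x.1 (i1 m)) (x.1 (i2 m))) (H71.SM.push m ν).w =
      ri (fun x => g (x.1 0) (x.1 1) (x.1 2)) ν.w := by
  have h : (fun y => (fun x : Sph (2 * m + 2) => g (x.1 (i0 m)) (x.1 (i1 m)) (x.1 (i2 m)))
      (H71.SM.inc m y)) = fun x : Sph 2 => g (x.1 0) (x.1 1) (x.1 2) := by
    funext y
    simp only []
    rw [inc_i0, inc_i1, inc_i2]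
  rw [H71.SM.ri_push, h]

/-- the criterion with the three sign changes -/
theorem even_oct (m : ℕ) {r : ℝ} (hr : 0 < r) (hc : ContractibleSpace (AVR (geo (2 * m + 2)) r))
    (g : Fin 3 → ℝ → ℝ → ℝ → ℝ)
    (hg : ∀ k, LB fun x : Sph (2 * m + 2) => g k (x.1 (i0 m)) (x.1 (i1 m)) (x.1 (i2 m)))
    (hne : ∀ ν : AVR (geo 2) r, (∀ j x, ν.w (H70.AV.flip j x) = ν.w x) →
      ∃ k, ri (fun x => g k (x.1 0) (x.1 1) (x.1 2)) ν.w ≠ 0)
    (U D : ℝ → ℝ → AVR (geo 2) r)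
    (hUc : Continuous fun p : ℝ × ℝ => U p.1 p.2) (hDc : Continuous fun p : ℝ × ℝ => D p.1 p.2)
    (hUY : ∀ u v j x, (U u v).w (H70.AV.flip j x) = (U u v).w x)
    (hDY : ∀ u v j x, (D u v).w (H70.AV.flip j x) = (D u v).w x)
    (hb1 : ∀ v, U 0 v = D 0 v) (hb2 : ∀ v, U 1 v = D 1 v)
    (hb3 : ∀ u, U u 0 = D u 0) (hb4 : ∀ u, U u 1 = D u 1)
    (hU2 : ∀ u v, 0 ≤ ri (fun x => g 2 (x.1 0) (x.1 1) (x.1 2)) (U u v).w)
    (hD2 : ∀ u v, ri (fun x => g 2 (x.1 0) (x.1 1) (x.1 2)) (D u v).w ≤ 0)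
    (hs1 : ∀ v, 0 ≤ ri (fun x => g 0 (x.1 0) (x.1 1) (x.1 2)) (U 1 v).w)
    (hs2 : ∀ v, 0 ≤ ri (fun x => g 1 (x.1 0) (x.1 1) (x.1 2)) (U 1 v).w)
    (he1 : ri (fun x => g 0 (x.1 0) (x.1 1) (x.1 2)) (U 1 0).w ≤ 0)
    (he2 : ri (fun x => g 1 (x.1 0) (x.1 1) (x.1 2)) (U 1 1).w ≤ 0)
    (hs3 : ∀ u, ri (fun x => g 1 (x.1 0) (x.1 1) (x.1 2)) (U u 1).w ≤ 0)
    (hs4 : ∀ v, ri (fun x => g 0 (x.1 0) (x.1 1) (x.1 2)) (U 0 v).w ≤ 0)
    (hs5 : ∀ u, ri (fun x => g 0 (x.1 0) (x.1 1) (x.1 2)) (U u 0).w ≤ 0) : False := by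
  refine even_sphere m hr hc 3 E8
    (f := fun k μ => ri (fun x => g k (x.1 (i0 m)) (x.1 (i1 m)) (x.1 (i2 m))) μ.w)
    (fun k => (hg k).continuous) ?_ U D hUc hDc ?_ ?_ hb1 hb2 hb3 hb4
    (fun u v => by rw [ri_push_i m (g 2)]; exact hU2 u v)
    (fun u v => by rw [ri_push_i m (g 2)]; exact hD2 u v)
    (fun v => by rw [ri_push_i m (g 0)]; exact hs1 v)
    (fun v => by rw [ri_push_i m (g 1)]; exact hs2 v)
    (by rw [ri_push_i m (g 0)]; exact he1)
    (by rw [ri_push_i m (g 1)]; exact he2)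
    (fun u => by rw [ri_push_i m (g 1)]; exact hs3 u)
    (fun v => by rw [ri_push_i m (g 0)]; exact hs4 v)
    (fun u => by rw [ri_push_i m (g 0)]; exact hs5 u)
  · intro ν hν
    have hinv : ∀ j x, ν.w (H70.AV.flip j x) = ν.w x := by
      intro j x
      have hj : j = 0 ∨ j = 1 ∨ j = 2 := by
        clear x
        revert j
        decide
      rcases hj with rfl | rfl | rfl
      · rw [← sg2_pat8]
        exact hν 0 (by norm_num) x
      · rw [← sg2_pat8]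
        exact hν 1 (by norm_num) x
      · rw [← sg2_pat8]
        exact hν 2 (by norm_num) x
    obtain ⟨k, hk⟩ := hne ν hinv
    refine ⟨k, ?_⟩
    rw [ri_push_i m (g k)]
    exact hk
  · intro u v j _ y
    unfold E8
    rw [sg2_pat8]
    exact hUY _ _ _ _
  · intro u v j _ y
    unfold E8
    rw [sg2_pat8]
    exact hDY _ _ _ _

end Pool.Agent.H89.AVB
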