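import Pool.Agent.H71.SM.Tower
import Pool.Agent.H71.SM.Rho
import Pool.Agent.H71.SM.Restrict

/-!
# Towers of rotations and sign changes on spheres of even dimension
-/

namespace Pool.Agent.H89.AVB

open Pool.Agent.H73.Avr Pool.Agent.H71.AV

/-- the sign as a real number -/
noncomputable def sr (u : ℤˣ) : ℝ := ((u : ℤ) : ℝ)

theorem sr_mul_self (u : ℤˣ) : sr u * sr u = 1 := by
  unfold sr
  rcases Int.units_eq_one_or u with h | h <;> rw [h] <;> norm_num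

/-- change of the signs of the three coordinates of the two-sphere, linear version -/
noncomputable def lsg2 (e : Fin 3 → ℤˣ) (x : EuclideanSpace ℝ (Fin 3)) :
    EuclideanSpace ℝ (Fin 3) :=
  WithLp.toLp 2 (fun i => sr (e i) * x i)

theorem lsg2_apply (e : Fin 3 → ℤˣ) (x : EuclideanSpace ℝ (Fin 3)) (i : Fin 3) :
    lsg2 e x i = sr (e i) * x i := rfl

theorem inner_lsg2 (e : Fin 3 → ℤˣ) (x y : EuclideanSpace ℝ (Fin 3)) :
    inner ℝ (lsg2 e x) (lsg2 e y) = inner ℝ x y := by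
  rw [PiLp.inner_apply, PiLp.inner_apply]
  refine Finset.sum_congr rfl fun i _ => ?_
  rw [lsg2_apply, lsg2_apply]
  simp only [RCLike.inner_apply, conj_trivial]
  linear_combination (y i * x i) * sr_mul_self (e i)

theorem norm_lsg2 (e : Fin 3 → ℤˣ) (x : EuclideanSpace ℝ (Fin 3)) : ‖lsg2 e x‖ = ‖x‖ := by
  have h1 := inner_lsg2 e x x
  rw [real_inner_self_eq_norm_sq, real_inner_self_eq_norm_sq] at h1
  exact (sq_eq_sq₀ (norm_nonneg _) (norm_nonneg _)).1 h1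

/-- change of the signs of the three coordinates of the two-sphere -/
noncomputable def sg2 (e : Fin 3 → ℤˣ) (x : Sph 2) : Sph 2 :=
  ⟨lsg2 e x.1, by rw [mem_sphere_zero_iff_norm, norm_lsg2, mem_sphere_zero_iff_norm.1 x.2]⟩

theorem sg2_apply (e : Fin 3 → ℤˣ) (x : Sph 2) (i : Fin 3) :
    (sg2 e x).1 i = sr (e i) * x.1 i := rfl

theorem sg2_sg2 (e : Fin 3 → ℤˣ) (x : Sph 2) : sg2 e (sg2 e x) = x := by
  apply Subtype.ext
  ext i
  rw [sg2_apply, sg2_apply, ← mul_assoc, sr_mul_self, one_mul]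

theorem sg2_injective (e : Fin 3 → ℤˣ) : Function.Injective (sg2 e) := fun x y h => by
  rw [← sg2_sg2 e x, h, sg2_sg2]

/-- change of the signs of the first three coordinates, linear version -/
noncomputable def lsg (m : ℕ) (e : Fin 3 → ℤˣ) (x : EuclideanSpace ℝ (Fin (2 * m + 2 + 1))) :
    EuclideanSpace ℝ (Fin (2 * m + 2 + 1)) :=
  WithLp.toLp 2 (fun i => if h : i.val < 3 then sr (e ⟨i.val, h⟩) * x i else x i)

theorem lsg_apply (m : ℕ) (e : Fin 3 → ℤˣ) (x : EuclideanSpace ℝ (Fin (2 * m + 2 + 1)))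
    (i : Fin (2 * m + 2 + 1)) :
    lsg m e x i = if h : i.val < 3 then sr (e ⟨i.val, h⟩) * x i else x i := rfl

theorem inner_lsg (m : ℕ) (e : Fin 3 → ℤˣ) (x y : EuclideanSpace ℝ (Fin (2 * m + 2 + 1))) :
    inner ℝ (lsg m e x) (lsg m e y) = inner ℝ x y := by
  rw [PiLp.inner_apply, PiLp.inner_apply]
  refine Finset.sum_congr rfl fun i _ => ?_
  rw [lsg_apply, lsg_apply]
  split_ifs with h
  · simp only [RCLike.inner_apply, conj_trivial]
    linear_combination (y i * x i) * sr_mul_self (e ⟨i.val, h⟩)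
  · rfl

theorem norm_lsg (m : ℕ) (e : Fin 3 → ℤˣ) (x : EuclideanSpace ℝ (Fin (2 * m + 2 + 1))) :
    ‖lsg m e x‖ = ‖x‖ := by
  have h1 := inner_lsg m e x x
  rw [real_inner_self_eq_norm_sq, real_inner_self_eq_norm_sq] at h1
  exact (sq_eq_sq₀ (norm_nonneg _) (norm_nonneg _)).1 h1

/-- change of the signs of the first three coordinates -/
noncomputable def sgn (m : ℕ) (e : Fin 3 → ℤˣ) (x : Sph (2 * m + 2)) : Sph (2 * m + 2) :=
  ⟨lsg m e x.1, by rw [mem_sphere_zero_iff_norm, norm_lsg, mem_sphere_zero_iff_norm.1 x.2]⟩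

theorem sgn_apply (m : ℕ) (e : Fin 3 → ℤˣ) (x : Sph (2 * m + 2)) (i : Fin (2 * m + 2 + 1)) :
    (sgn m e x).1 i = if h : i.val < 3 then sr (e ⟨i.val, h⟩) * x.1 i else x.1 i := rfl

theorem sgn_sgn (m : ℕ) (e : Fin 3 → ℤˣ) (x : Sph (2 * m + 2)) : sgn m e (sgn m e x) = x := by
  apply Subtype.ext
  ext i
  rw [sgn_apply, sgn_apply]
  split_ifs with h
  · rw [← mul_assoc, sr_mul_self, one_mul]
  · rfl

theorem sgn_comm (m : ℕ) (e f : Fin 3 → ℤˣ) (x : Sph (2 * m + 2)) :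
    sgn m e (sgn m f x) = sgn m f (sgn m e x) := by
  apply Subtype.ext
  ext i
  rw [sgn_apply, sgn_apply, sgn_apply, sgn_apply]
  split_ifs with h
  · ring
  · rfl

theorem sgn_injective (m : ℕ) (e : Fin 3 → ℤˣ) : Function.Injective (sgn m e) := fun x y h => by
  rw [← sgn_sgn m e x, h, sgn_sgn]

theorem geo_sgn (m : ℕ) (e : Fin 3 → ℤˣ) (x y : Sph (2 * m + 2)) :
    geo (2 * m + 2) (sgn m e x) (sgn m e y) = geo (2 * m + 2) x y := by
  unfold geo InnerProductGeometry.angle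
  show Real.arccos (inner ℝ (lsg m e x.1) (lsg m e y.1) / (‖lsg m e x.1‖ * ‖lsg m e y.1‖)) = _
  rw [inner_lsg, norm_lsg, norm_lsg]

theorem rho_apply' (m : ℕ) (θ : ℝ) (x : Sph (2 * m + 2)) (i : Fin (2 * m + 2 + 1)) :
    (H71.SM.rho m θ x).1 i = if _h3 : i.val < 3 then x.1 i
      else if ho : i.val % 2 = 1 then
        Real.cos θ * x.1 i - Real.sin θ * x.1 ⟨i.val + 1, by omega⟩
      else Real.sin θ * x.1 ⟨i.val - 1, by omega⟩ + Real.cos θ * x.1 i := rfl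

theorem sgn_rho (m : ℕ) (e : Fin 3 → ℤˣ) (θ : ℝ) (x : Sph (2 * m + 2)) :
    sgn m e (H71.SM.rho m θ x) = H71.SM.rho m θ (sgn m e x) := by
  apply Subtype.ext
  ext i
  rw [sgn_apply, rho_apply', rho_apply']
  by_cases h : i.val < 3
  · rw [dif_pos h, dif_pos h, dif_pos h, sgn_apply, dif_pos h]
  · rw [dif_neg h, dif_neg h, dif_neg h]
    by_cases ho : i.val % 2 = 1
    · rw [dif_pos ho, dif_pos ho, sgn_apply, sgn_apply, dif_neg h,
        dif_neg (by show ¬ (i.val + 1 < 3); omega)]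
    · rw [dif_neg ho, dif_neg ho, sgn_apply, sgn_apply, dif_neg h,
        dif_neg (by show ¬ (i.val - 1 < 3); omega)]

theorem rho_inj (m : ℕ) (θ : ℝ) : Function.Injective (H71.SM.rho m θ) := by
  intro x y h
  have h1 : H71.SM.rho m (2 * Real.pi - θ) (H71.SM.rho m θ x) =
      H71.SM.rho m (2 * Real.pi - θ) (H71.SM.rho m θ y) := by rw [h]
  rw [H71.SM.rho_rho, H71.SM.rho_rho, sub_add_cancel, H71.SM.rho_two_pi, H71.SM.rho_two_pi] at h1
  exact h1

theorem sgn_inc (m : ℕ) (e : Fin 3 → ℤˣ) (y : Sph 2) :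
    sgn m e (H71.SM.inc m y) = H71.SM.inc m (sg2 e y) := by
  apply Subtype.ext
  ext i
  rw [sgn_apply, H71.SM.inc_apply, H71.SM.inc_apply]
  by_cases h : i.val < 3
  · rw [dif_pos h, dif_pos h, dif_pos h, sg2_apply]
  · rw [dif_neg h, dif_neg h, dif_neg h]

theorem rho_inc (m : ℕ) (θ : ℝ) (y : Sph 2) :
    H71.SM.rho m θ (H71.SM.inc m y) = H71.SM.inc m y := by
  apply Subtype.ext
  ext i
  rw [rho_apply']
  by_cases h : i.val < 3
  · rw [dif_pos h]
  · rw [dif_neg h]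
    by_cases ho : i.val % 2 = 1
    · rw [dif_pos ho, H71.SM.inc_apply, H71.SM.inc_apply, dif_neg h,
        dif_neg (by show ¬ (i.val + 1 < 3); omega)]
      ring
    · rw [dif_neg ho, H71.SM.inc_apply, H71.SM.inc_apply, dif_neg h,
        dif_neg (by show ¬ (i.val - 1 < 3); omega)]
      ring

/-- the tower: rotations by `π`, `π / 2`, ..., `π / 2 ^ k`, then sign changes -/
noncomputable def tw (m k : ℕ) (E : ℕ → Fin 3 → ℤˣ) (i : ℕ) : Sph (2 * m + 2) → Sph (2 * m + 2) :=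
  if i ≤ k then H71.SM.rho m (Real.pi / 2 ^ i) else sgn m (E (i - (k + 1)))

theorem tw_le {m k : ℕ} {E : ℕ → Fin 3 → ℤˣ} {i : ℕ} (h : i ≤ k) :
    tw m k E i = H71.SM.rho m (Real.pi / 2 ^ i) := if_pos h

theorem tw_gt {m k : ℕ} {E : ℕ → Fin 3 → ℤˣ} (j : ℕ) :
    tw m k E (k + 1 + j) = sgn m (E j) := by
  unfold tw
  rw [if_neg (by omega), Nat.add_sub_cancel_left]

theorem tw_cases (m k : ℕ) (E : ℕ → Fin 3 → ℤˣ) (i : ℕ) :
    (i ≤ k ∧ tw m k E i = H71.SM.rho m (Real.pi / 2 ^ i)) ∨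
      ∃ j, i = k + 1 + j ∧ tw m k E i = sgn m (E j) := by
  rcases Nat.lt_or_ge k i with h | h
  · right
    refine ⟨i - (k + 1), by omega, ?_⟩
    unfold tw
    rw [if_neg (by omega)]
  · left
    exact ⟨h, if_pos h⟩

theorem tower_ok (m k q : ℕ) (E : ℕ → Fin 3 → ℤˣ) :
    H71.SM.TowerOK (2 * m + 2) (k + 1 + q) (tw m k E) where
  iso := by
    intro i _ x y
    rcases tw_cases m k E i with ⟨-, h⟩ | ⟨j, -, h⟩
    · rw [h]; exact H71.SM.geo_rho m _ x y
    · rw [h]; exact geo_sgn m _ x y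
  nrm := by
    intro i hi j hj
    refine ⟨j, hj, fun x => ?_⟩
    rcases tw_cases m k E i with ⟨-, h⟩ | ⟨a, -, h⟩ <;>
      rcases tw_cases m k E j with ⟨-, h'⟩ | ⟨b, -, h'⟩
    · rw [h, h', H71.SM.rho_rho, H71.SM.rho_rho, add_comm (Real.pi / 2 ^ i)]
    · rw [h, h', sgn_rho]
    · rw [h, h', sgn_rho]
    · rw [h, h', sgn_comm]
  sq := by
    intro i _
    rcases tw_cases m k E i with ⟨hi, h⟩ | ⟨a, -, h⟩
    · rcases Nat.eq_zero_or_pos i with h0 | h0
      · left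
        intro x
        rw [h, H71.SM.rho_rho, h0, pow_zero, div_one, ← two_mul, H71.SM.rho_two_pi]
      · right
        obtain ⟨j, rfl⟩ : ∃ j, i = j + 1 := ⟨i - 1, by omega⟩
        refine ⟨j, by omega, fun x => ?_⟩
        rw [h, H71.SM.rho_rho, tw_le (by omega : j ≤ k)]
        congr 1
        rw [pow_succ]
        field_simp
        ring
    · left
      intro x
      rw [h, sgn_sgn]

/-- the pushed measure is invariant under a map which restricts to a symmetry of the measure -/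
theorem push_inv {m : ℕ} {r : ℝ} (ν : AVR (geo 2) r) (T : Sph (2 * m + 2) → Sph (2 * m + 2))
    (hT : Function.Injective T) (e : Sph 2 → Sph 2) (hee : ∀ y, e (e y) = y)
    (hTe : ∀ y, T (H71.SM.inc m y) = H71.SM.inc m (e y)) (hν : ∀ y, ν.w (e y) = ν.w y)
    (hw : (H71.SM.push m ν).w = ν.w.mapDomain (H71.SM.inc m)) (x : Sph (2 * m + 2)) :
    (H71.SM.push m ν).w (T x) = (H71.SM.push m ν).w x := by
  have he : Function.Injective e := fun a b h => by rw [← hee a, h, hee]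
  have h1 : ν.w.mapDomain e = ν.w := by
    ext y
    conv_lhs => rw [← hee y]
    rw [Finsupp.mapDomain_apply he, hν]
  have h2 : (H71.SM.push m ν).w.mapDomain T = (H71.SM.push m ν).w := by
    rw [hw, ← Finsupp.mapDomain_comp]
    have h3 : T ∘ H71.SM.inc m = H71.SM.inc m ∘ e := funext hTe
    rw [h3, Finsupp.mapDomain_comp, h1]
  conv_lhs => rw [← h2]
  rw [Finsupp.mapDomain_apply hT]

theorem push_Inv {m k q : ℕ} {r : ℝ} {E : ℕ → Fin 3 → ℤˣ} (ν : AVR (geo 2) r)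
    (hν : ∀ j < q, ∀ y, ν.w (sg2 (E j) y) = ν.w y) :
    H71.SM.Inv (s := k + 1 + q) (tw m k E) (H71.SM.push m ν) := by
  intro i hi x
  rcases tw_cases m k E i with ⟨-, h⟩ | ⟨j, hj, h⟩
  · rw [h]
    exact push_inv ν _ (rho_inj m _) id (fun _ => rfl) (fun y => rho_inc m _ y) (fun _ => rfl)
      rfl x
  · rw [h]
    exact push_inv ν _ (sgn_injective m _) (sg2 (E j)) (sg2_sg2 _) (sgn_inc m _)
      (hν j (by omega)) rfl x

theorem exists_nu {m k q : ℕ} {r : ℝ} {E : ℕ → Fin 3 → ℤˣ} (hk : Real.pi / 2 ^ k < r)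
    (μ : AVR (geo (2 * m + 2)) r) (hμ : H71.SM.Inv (s := k + 1 + q) (tw m k E) μ) :
    ∃ ν : AVR (geo 2) r, H71.SM.push m ν = μ ∧ ∀ j < q, ∀ y, ν.w (sg2 (E j) y) = ν.w y := by
  have h1 : ∀ x, μ.w (H71.SM.rho m (Real.pi / 2 ^ k) x) = μ.w x := by
    intro x
    have h := hμ k (by omega) x
    rw [tw_le le_rfl] at h
    exact h
  have h2 := H71.SM.supp_of_rho m (by have := Real.pi_pos; positivity) hk
    (div_le_self Real.pi_pos.le (one_le_pow₀ (by norm_num))) μ h1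
  obtain ⟨ν, hν⟩ := H71.SM.exists_restrict m μ h2
  refine ⟨ν, hν, fun j hj y => ?_⟩
  have h3 := hμ (k + 1 + j) (by omega) (H71.SM.inc m y)
  rw [tw_gt, sgn_inc, ← hν, H71.SM.push_apply, H71.SM.push_apply] at h3
  exact h3

theorem exists_k {r : ℝ} (hr : 0 < r) : ∃ k : ℕ, Real.pi / 2 ^ k < r := by
  obtain ⟨k, hk⟩ := pow_unbounded_of_one_lt (Real.pi / r) (by norm_num : (1 : ℝ) < 2)
  refine ⟨k, ?_⟩
  rw [div_lt_iff₀ hr] at hk
  rw [div_lt_iff₀ (by positivity)]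
  linarith

/-- the two-point criterion for spheres of even dimension -/
theorem even_disc (m : ℕ) {r : ℝ} (hr : 0 < r) (hc : ContractibleSpace (AVR (geo (2 * m + 2)) r))
    (q : ℕ) (E : ℕ → Fin 3 → ℤˣ) (h : AVR (geo (2 * m + 2)) r → ℝ) (hh : Continuous h)
    (hne : ∀ ν : AVR (geo 2) r, (∀ j < q, ∀ y, ν.w (sg2 (E j) y) = ν.w y) →
      h (H71.SM.push m ν) ≠ 0)
    (a b : AVR (geo 2) r) (ha : ∀ j < q, ∀ y, a.w (sg2 (E j) y) = a.w y)
    (hb : ∀ j < q, ∀ y, b.w (sg2 (E j) y) = b.w y) (hpa : 0 < h (H71.SM.push m a))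
    (hpb : h (H71.SM.push m b) < 0) : False := by
  obtain ⟨k, hk⟩ := exists_k hr
  refine H71.SM.avr_disc hr hc (k + 1 + q) (tw m k E) (tower_ok m k q E) h hh ?_
    (H71.SM.push m a) (H71.SM.push m b) (push_Inv a ha) (push_Inv b hb) hpa hpb
  intro μ hμ
  obtain ⟨ν, rfl, hν⟩ := exists_nu hk μ hμ
  exact hne ν hν

/-- the loop criterion for spheres of even dimension -/
theorem even_loop (m : ℕ) {r : ℝ} (hr : 0 < r) (hc : ContractibleSpace (AVR (geo (2 * m + 2)) r))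
    (q : ℕ) (E : ℕ → Fin 3 → ℤˣ) (t h : AVR (geo (2 * m + 2)) r → ℝ) (ht : Continuous t)
    (hh : Continuous h)
    (hne : ∀ ν : AVR (geo 2) r, (∀ j < q, ∀ y, ν.w (sg2 (E j) y) = ν.w y) →
      t (H71.SM.push m ν) = 0 → h (H71.SM.push m ν) ≠ 0)
    (pth : Fin 4 → ℝ → AVR (geo 2) r) (hpc : ∀ i, Continuous (pth i))
    (hpi : ∀ i u, ∀ j < q, ∀ y, (pth i u).w (sg2 (E j) y) = (pth i u).w y)
    (hglue : ∀ i, pth i 1 = pth (i + 1) 0) (h0 : ∀ u, 0 < h (H71.SM.push m (pth 0 u)))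
    (hs : |h (H71.SM.push m (pth 0 0))| < t (H71.SM.push m (pth 0 0)))
    (he : |h (H71.SM.push m (pth 0 1))| < -t (H71.SM.push m (pth 0 1)))
    (hl : ∀ i, i ≠ 0 → ∀ u, h (H71.SM.push m (pth i u)) < |t (H71.SM.push m (pth i u))|) :
    False := by
  obtain ⟨k, hk⟩ := exists_k hr
  refine H71.SM.avr_loop hr hc (k + 1 + q) (tw m k E) (tower_ok m k q E) t h ht hh ?_
    (fun i u => H71.SM.push m (pth i u)) (fun i => (H71.SM.push_continuous m).comp (hpc i))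
    (fun i u => push_Inv _ (hpi i u)) (fun i => by rw [hglue]) h0 hs he hl
  intro μ hμ
  obtain ⟨ν, rfl, hν⟩ := exists_nu hk μ hμ
  exact hne ν hν

end Pool.Agent.H89.AVB
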