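import Pool.Agent.H89.AVB.Tow
import Pool.Agent.H71.SM.Sphere

/-!
# The two-sphere criterion for spheres of even dimension
-/

namespace Pool.Agent.H89.AVB

open Pool.Agent.H73.Avr Pool.Agent.H71.AV

/-- the detection of a two-sphere of invariant measures, tower form -/
theorem tower_sphere {n : ℕ} {r : ℝ} (hr : 0 < r) (hc : ContractibleSpace (AVR (geo n) r))
    (s : ℕ) (T : ℕ → Sph n → Sph n) (hT : H71.SM.TowerOK n s T)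
    {f : Fin 3 → AVR (geo n) r → ℝ} (hfc : ∀ k, Continuous (f k))
    (hne : ∀ μ, H71.SM.Inv (s := s) T μ → ∃ k, f k μ ≠ 0) (U D : ℝ → ℝ → AVR (geo n) r)
    (hUc : Continuous fun p : ℝ × ℝ => U p.1 p.2) (hDc : Continuous fun p : ℝ × ℝ => D p.1 p.2)
    (hUY : ∀ u v, H71.SM.Inv (s := s) T (U u v)) (hDY : ∀ u v, H71.SM.Inv (s := s) T (D u v))
    (hb1 : ∀ v, U 0 v = D 0 v) (hb2 : ∀ v, U 1 v = D 1 v)
    (hb3 : ∀ u, U u 0 = D u 0) (hb4 : ∀ u, U u 1 = D u 1)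
    (hU2 : ∀ u v, 0 ≤ f 2 (U u v)) (hD2 : ∀ u v, f 2 (D u v) ≤ 0)
    (hs1 : ∀ v, 0 ≤ f 0 (U 1 v)) (hs2 : ∀ v, 0 ≤ f 1 (U 1 v))
    (he1 : f 0 (U 1 0) ≤ 0) (he2 : f 1 (U 1 1) ≤ 0)
    (hs3 : ∀ u, f 1 (U u 1) ≤ 0) (hs4 : ∀ v, f 0 (U 0 v) ≤ 0) (hs5 : ∀ u, f 0 (U u 0) ≤ 0) :
    False := by
  obtain ⟨hm, h⟩ := H71.SM.avr_acy hr hc s T hT
  have : CompactSpace (AVR (geo n) r) := H71.SM.avr_compact hr
  let _ := TopologicalSpace.metrizableSpaceMetric (AVR (geo n) r)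
  exact H71.SM.acy_sphere h.2 h.1 hfc hne U D hUc hDc hUY hDY hb1 hb2 hb3 hb4 hU2 hD2 hs1 hs2
    he1 he2 hs3 hs4 hs5

/-- the two-sphere criterion for spheres of even dimension -/
theorem even_sphere (m : ℕ) {r : ℝ} (hr : 0 < r) (hc : ContractibleSpace (AVR (geo (2 * m + 2)) r))
    (q : ℕ) (E : ℕ → Fin 3 → ℤˣ) {f : Fin 3 → AVR (geo (2 * m + 2)) r → ℝ}
    (hfc : ∀ k, Continuous (f k))
    (hne : ∀ ν : AVR (geo 2) r, (∀ j < q, ∀ y, ν.w (sg2 (E j) y) = ν.w y) →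
      ∃ k, f k (H71.SM.push m ν) ≠ 0)
    (U D : ℝ → ℝ → AVR (geo 2) r)
    (hUc : Continuous fun p : ℝ × ℝ => U p.1 p.2) (hDc : Continuous fun p : ℝ × ℝ => D p.1 p.2)
    (hUY : ∀ u v, ∀ j < q, ∀ y, (U u v).w (sg2 (E j) y) = (U u v).w y)
    (hDY : ∀ u v, ∀ j < q, ∀ y, (D u v).w (sg2 (E j) y) = (D u v).w y)
    (hb1 : ∀ v, U 0 v = D 0 v) (hb2 : ∀ v, U 1 v = D 1 v)
    (hb3 : ∀ u, U u 0 = D u 0) (hb4 : ∀ u, U u 1 = D u 1)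
    (hU2 : ∀ u v, 0 ≤ f 2 (H71.SM.push m (U u v))) (hD2 : ∀ u v, f 2 (H71.SM.push m (D u v)) ≤ 0)
    (hs1 : ∀ v, 0 ≤ f 0 (H71.SM.push m (U 1 v))) (hs2 : ∀ v, 0 ≤ f 1 (H71.SM.push m (U 1 v)))
    (he1 : f 0 (H71.SM.push m (U 1 0)) ≤ 0) (he2 : f 1 (H71.SM.push m (U 1 1)) ≤ 0)
    (hs3 : ∀ u, f 1 (H71.SM.push m (U u 1)) ≤ 0) (hs4 : ∀ v, f 0 (H71.SM.push m (U 0 v)) ≤ 0)
    (hs5 : ∀ u, f 0 (H71.SM.push m (U u 0)) ≤ 0) : False := by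
  obtain ⟨k, hk⟩ := exists_k hr
  refine tower_sphere hr hc (k + 1 + q) (tw m k E) (tower_ok m k q E) hfc ?_
    (fun u v => H71.SM.push m (U u v)) (fun u v => H71.SM.push m (D u v))
    ((H71.SM.push_continuous m).comp hUc) ((H71.SM.push_continuous m).comp hDc)
    (fun u v => push_Inv _ (hUY u v)) (fun u v => push_Inv _ (hDY u v))
    (fun v => by rw [hb1]) (fun v => by rw [hb2]) (fun u => by rw [hb3]) (fun u => by rw [hb4])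
    hU2 hD2 hs1 hs2 he1 he2 hs3 hs4 hs5
  intro μ hμ
  obtain ⟨ν, rfl, hν⟩ := exists_nu hk μ hμ
  exact hne ν hν

end Pool.Agent.H89.AVB
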